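import Pool.Agent.Lib.MP_e12961_lc.Basic

/-!
Use principle and normal form for Turing reducibility to a sequence of bits.
-/

set_option autoImplicit false

namespace Pool.Agent.MP_e12961_lc

/-- The oracle attached to a sequence of bits. -/
def orc (X : ℕ → Bool) : ℕ → Part ℕ := fun n => Part.some (X n).toNat

/-- `ψ` is monotone under extension of the string. -/
def Mono (ψ : List Bool → ℕ → Option ℕ) : Prop :=
  ∀ (σ τ : List Bool) (n y : ℕ), ψ σ n = some y → ψ (σ ++ τ) n = some y

theorem res_append (X : ℕ → Bool) (s t : ℕ) (h : s ≤ t) : ∃ τ, res X t = res X s ++ τ := by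
  refine ⟨(res X t).drop s, ?_⟩
  rw [← res_take X s t h, List.take_append_drop]

theorem Mono.le {ψ : List Bool → ℕ → Option ℕ} (h : Mono ψ) (X : ℕ → Bool) {s t : ℕ}
    (hst : s ≤ t) {n y : ℕ} (hy : ψ (res X s) n = some y) : ψ (res X t) n = some y := by
  obtain ⟨τ, hτ⟩ := res_append X s t hst
  rw [hτ]
  exact h _ _ _ _ hy

theorem Mono.uniq {ψ : List Bool → ℕ → Option ℕ} (h : Mono ψ) (X : ℕ → Bool) {s t : ℕ}
    {n y z : ℕ} (hy : ψ (res X s) n = some y) (hz : ψ (res X t) n = some z) : y = z := by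
  have h1 := h.le X (le_max_left s t) hy
  have h2 := h.le X (le_max_right s t) hz
  rw [h1] at h2
  exact Option.some.inj h2

/-- `ψ` represents the function `f` relative to `X`. -/
def Rep (X : ℕ → Bool) (ψ : List Bool → ℕ → Option ℕ) (f : ℕ → Part ℕ) : Prop :=
  Primrec₂ ψ ∧ Mono ψ ∧ ∀ n y, y ∈ f n ↔ ∃ s, ψ (res X s) n = some y

theorem findIdx_range (s y : ℕ) (p : ℕ → Bool) (hy : y ≤ s) (h1 : ∀ m < y, p m = false)
    (h2 : y < s → p y = true) : (List.range s).findIdx p = y := by
  rcases Nat.lt_or_ge y s with h | h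
  · rw [List.findIdx_eq (by simpa using h)]
    refine ⟨by simpa using h2 h, ?_⟩
    intro j hj
    simpa using h1 j hj
  · have hys : y = s := le_antisymm hy h
    subst hys
    have : (List.range y).findIdx p = (List.range y).length := by
      rw [List.findIdx_eq_length]
      intro x hx
      simpa using h1 x (by simpa using hx)
    simpa using this

theorem rep_prim (X : ℕ → Bool) (f : ℕ → ℕ) (hf : Primrec f) :
    Rep X (fun _ n => some (f n)) (fun n => Part.some (f n)) := by
  refine ⟨Primrec.option_some.comp (hf.comp Primrec.snd), ?_, ?_⟩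
  · intro σ τ n y h
    exact h
  · intro n y
    simp [eq_comm]

theorem rep_oracle (X : ℕ → Bool) :
    Rep X (fun σ n => (σ[n]?).map Bool.toNat) (orc X) := by
  refine ⟨?_, ?_, ?_⟩
  · exact Primrec.option_map (Primrec.list_getElem?.comp Primrec.fst Primrec.snd)
      ((Primrec.dom_bool _).comp Primrec.snd).to₂
  · intro σ τ n y h
    rw [Option.map_eq_some_iff] at h ⊢
    obtain ⟨a, ha, hy⟩ := h
    refine ⟨a, ?_, hy⟩
    have hn : n < σ.length := by
      by_contra hcon
      rw [List.getElem?_eq_none (by omega)] at ha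
      exact absurd ha (by simp)
    rw [List.getElem?_append_left hn]
    exact ha
  · intro n y
    constructor
    · intro h
      simp only [orc, Part.mem_some_iff] at h
      refine ⟨n + 1, ?_⟩
      beta_reduce
      rw [res_getElem? X (n + 1) n (by omega), h]
      rfl
    · rintro ⟨s, hs⟩
      rw [Option.map_eq_some_iff] at hs
      obtain ⟨a, ha, hy⟩ := hs
      have hn : n < s := by
        by_contra hcon
        rw [List.getElem?_eq_none (by simp; omega)] at ha
        exact absurd ha (by simp)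
      rw [res_getElem? X s n hn] at ha
      simp only [orc, Part.mem_some_iff]
      rw [← hy, ← Option.some.inj ha]

theorem rep_pair (X : ℕ → Bool) (f h : ℕ → Part ℕ) (ψ χ : List Bool → ℕ → Option ℕ)
    (hf : Rep X ψ f) (hh : Rep X χ h) :
    Rep X (fun σ n => (ψ σ n).bind fun a => (χ σ n).map fun b => Nat.pair a b)
      (fun n => (Nat.pair <$> f n <*> h n)) := by
  obtain ⟨p1, m1, e1⟩ := hf
  obtain ⟨p2, m2, e2⟩ := hh
  refine ⟨?_, ?_, ?_⟩
  · refine Primrec.option_bind (g := fun (q : List Bool × ℕ) (a : ℕ) =>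
      (χ q.1 q.2).map fun b => Nat.pair a b) p1 ?_
    refine Primrec.option_map (g := fun (q : (List Bool × ℕ) × ℕ) (b : ℕ) => Nat.pair q.2 b)
      (p2.comp (Primrec.fst.comp Primrec.fst) (Primrec.snd.comp Primrec.fst)) ?_
    exact Primrec₂.natPair.comp (Primrec.snd.comp Primrec.fst) Primrec.snd
  · intro σ τ n y hy
    rw [Option.bind_eq_some_iff] at hy ⊢
    obtain ⟨a, ha, hy⟩ := hy
    rw [Option.map_eq_some_iff] at hy
    obtain ⟨b, hb, hy⟩ := hy
    refine ⟨a, m1 _ _ _ _ ha, ?_⟩
    rw [Option.map_eq_some_iff]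
    exact ⟨b, m2 _ _ _ _ hb, hy⟩
  · intro n y
    have key : y ∈ (Nat.pair <$> f n <*> h n) ↔ ∃ a ∈ f n, ∃ b ∈ h n, Nat.pair a b = y := by
      simp [Seq.seq]
    rw [key]
    constructor
    · rintro ⟨a, ha, b, hb, hy⟩
      rw [e1] at ha
      rw [e2] at hb
      obtain ⟨s, hs⟩ := ha
      obtain ⟨t, ht⟩ := hb
      refine ⟨max s t, ?_⟩
      beta_reduce
      rw [m1.le X (le_max_left s t) hs, Option.bind_some, m2.le X (le_max_right s t) ht,
        Option.map_some, hy]
    · rintro ⟨s, hs⟩
      rw [Option.bind_eq_some_iff] at hs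
      obtain ⟨a, ha, hy⟩ := hs
      rw [Option.map_eq_some_iff] at hy
      obtain ⟨b, hb, hy⟩ := hy
      exact ⟨a, (e1 _ _).2 ⟨s, ha⟩, b, (e2 _ _).2 ⟨s, hb⟩, hy⟩

theorem rep_comp (X : ℕ → Bool) (f h : ℕ → Part ℕ) (ψ χ : List Bool → ℕ → Option ℕ)
    (hf : Rep X ψ f) (hh : Rep X χ h) :
    Rep X (fun σ n => (χ σ n).bind fun a => ψ σ a) (fun n => h n >>= f) := by
  obtain ⟨p1, m1, e1⟩ := hf
  obtain ⟨p2, m2, e2⟩ := hh
  refine ⟨?_, ?_, ?_⟩
  · refine Primrec.option_bind (g := fun (q : List Bool × ℕ) (a : ℕ) => ψ q.1 a) p2 ?_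
    exact p1.comp (Primrec.fst.comp Primrec.fst) Primrec.snd
  · intro σ τ n y hy
    rw [Option.bind_eq_some_iff] at hy ⊢
    obtain ⟨a, ha, hy⟩ := hy
    exact ⟨a, m2 _ _ _ _ ha, m1 _ _ _ _ hy⟩
  · intro n y
    have key : y ∈ (h n >>= f) ↔ ∃ a ∈ h n, y ∈ f a := by
      simp
    rw [key]
    constructor
    · rintro ⟨a, ha, hy⟩
      rw [e2] at ha
      rw [e1] at hy
      obtain ⟨s, hs⟩ := ha
      obtain ⟨t, ht⟩ := hy
      refine ⟨max s t, ?_⟩
      beta_reduce
      rw [m2.le X (le_max_left s t) hs, Option.bind_some, m1.le X (le_max_right s t) ht]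
    · rintro ⟨s, hs⟩
      rw [Option.bind_eq_some_iff] at hs
      obtain ⟨a, ha, hy⟩ := hs
      exact ⟨a, (e2 _ _).2 ⟨s, ha⟩, (e1 _ _).2 ⟨s, hy⟩⟩

/-- The representing function of a primitive recursion. -/
def recO (ψ χ : List Bool → ℕ → Option ℕ) (σ : List Bool) (a n : ℕ) : Option ℕ :=
  Nat.rec (ψ σ a) (fun y IH => IH.bind fun i => χ σ (Nat.pair a (Nat.pair y i))) n

/-- The partial function defined by primitive recursion. -/
def recP (f h : ℕ → Part ℕ) (a n : ℕ) : Part ℕ :=
  Nat.rec (f a) (fun y IH => IH >>= fun i => h (Nat.pair a (Nat.pair y i))) n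

theorem recO_mono (ψ χ : List Bool → ℕ → Option ℕ) (m1 : Mono ψ) (m2 : Mono χ)
    (σ τ : List Bool) (a n y : ℕ) (h : recO ψ χ σ a n = some y) :
    recO ψ χ (σ ++ τ) a n = some y := by
  induction n generalizing y with
  | zero => exact m1 _ _ _ _ h
  | succ n ih =>
    change (recO ψ χ σ a n).bind _ = some y at h
    change (recO ψ χ (σ ++ τ) a n).bind _ = some y
    rw [Option.bind_eq_some_iff] at h ⊢
    obtain ⟨i, hi, hy⟩ := h
    exact ⟨i, ih i hi, m2 _ _ _ _ hy⟩

theorem rep_prec (X : ℕ → Bool) (f h : ℕ → Part ℕ) (ψ χ : List Bool → ℕ → Option ℕ)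
    (hf : Rep X ψ f) (hh : Rep X χ h) :
    Rep X (fun σ p => recO ψ χ σ p.unpair.1 p.unpair.2)
      (fun p => recP f h p.unpair.1 p.unpair.2) := by
  obtain ⟨p1, m1, e1⟩ := hf
  obtain ⟨p2, m2, e2⟩ := hh
  refine ⟨?_, ?_, ?_⟩
  · have := Primrec.nat_rec' (f := fun q : List Bool × ℕ => q.2.unpair.2)
      (g := fun q : List Bool × ℕ => ψ q.1 q.2.unpair.1)
      (h := fun (q : List Bool × ℕ) (r : ℕ × Option ℕ) =>
        r.2.bind fun i => χ q.1 (Nat.pair q.2.unpair.1 (Nat.pair r.1 i)))
      (Primrec.snd.comp (Primrec.unpair.comp Primrec.snd))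
      (p1.comp Primrec.fst (Primrec.fst.comp (Primrec.unpair.comp Primrec.snd)))
      (by
        refine Primrec.option_bind (g := fun (z : (List Bool × ℕ) × (ℕ × Option ℕ)) (i : ℕ) =>
          χ z.1.1 (Nat.pair z.1.2.unpair.1 (Nat.pair z.2.1 i)))
          (Primrec.snd.comp Primrec.snd) ?_
        refine p2.comp (Primrec.fst.comp (Primrec.fst.comp Primrec.fst)) ?_
        refine Primrec₂.natPair.comp
          (Primrec.fst.comp (Primrec.unpair.comp (Primrec.snd.comp
            (Primrec.fst.comp Primrec.fst)))) ?_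
        exact Primrec₂.natPair.comp (Primrec.fst.comp (Primrec.snd.comp Primrec.fst)) Primrec.snd)
    exact this
  · intro σ τ p y hy
    exact recO_mono ψ χ m1 m2 _ _ _ _ _ hy
  · intro p y
    beta_reduce
    generalize p.unpair.1 = a
    generalize p.unpair.2 = n
    induction n generalizing y with
    | zero => exact e1 a y
    | succ n ih =>
      have key : y ∈ recP f h a (n + 1) ↔
          ∃ i ∈ recP f h a n, y ∈ h (Nat.pair a (Nat.pair n i)) := by
        change y ∈ (recP f h a n >>= fun i => h (Nat.pair a (Nat.pair n i))) ↔ _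
        simp
      have key2 : ∀ σ, recO ψ χ σ a (n + 1) = some y ↔
          ∃ i, recO ψ χ σ a n = some i ∧ χ σ (Nat.pair a (Nat.pair n i)) = some y := by
        intro σ
        change (recO ψ χ σ a n).bind _ = some y ↔ _
        rw [Option.bind_eq_some_iff]
      rw [key]
      simp only [key2]
      constructor
      · rintro ⟨i, hi, hy⟩
        rw [ih] at hi
        rw [e2] at hy
        obtain ⟨s, hs⟩ := hi
        obtain ⟨t, ht⟩ := hy
        refine ⟨max s t, i, ?_, m2.le X (le_max_right s t) ht⟩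
        obtain ⟨τ, hτ⟩ := res_append X s (max s t) (le_max_left s t)
        rw [hτ]
        exact recO_mono ψ χ m1 m2 _ _ _ _ _ hs
      · rintro ⟨s, i, hi, hy⟩
        exact ⟨i, (ih i).2 ⟨s, hi⟩, (e2 _ _).2 ⟨s, hy⟩⟩

/-- The test used in a bounded search: the value is not (yet) known to be positive. -/
def stopAt (o : Option ℕ) : Bool := Option.casesOn o true (fun k => decide (k = 0))

theorem rep_rfind (X : ℕ → Bool) (f : ℕ → Part ℕ) (ψ : List Bool → ℕ → Option ℕ)
    (hf : Rep X ψ f) :
    Rep X (fun σ a =>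
        if ψ σ (Nat.pair a ((List.range σ.length).findIdx fun n => stopAt (ψ σ (Nat.pair a n)))) =
          some 0 then some ((List.range σ.length).findIdx fun n => stopAt (ψ σ (Nat.pair a n)))
        else none)
      (fun a => Nat.rfind fun n => (fun m => decide (m = 0)) <$> f (Nat.pair a n)) := by
  obtain ⟨p1, m1, e1⟩ := hf
  have hstop : Primrec stopAt := by
    refine Primrec.option_casesOn (o := fun o : Option ℕ => o)
      (f := fun _ => true) (g := fun _ k => decide (k = 0)) Primrec.id (Primrec.const true) ?_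
    exact Primrec.eq.decide.comp Primrec.snd (Primrec.const 0)
  have hidx : Primrec₂ fun (σ : List Bool) (a : ℕ) =>
      (List.range σ.length).findIdx fun n => stopAt (ψ σ (Nat.pair a n)) := by
    refine Primrec.list_findIdx (f := fun q : List Bool × ℕ => List.range q.1.length)
      (p := fun q n => stopAt (ψ q.1 (Nat.pair q.2 n)))
      (Primrec.list_range.comp (Primrec.list_length.comp Primrec.fst)) ?_
    refine hstop.comp ?_
    exact p1.comp (Primrec.fst.comp Primrec.fst)
      (Primrec₂.natPair.comp (Primrec.snd.comp Primrec.fst) Primrec.snd)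
  -- characterisation of the value
  have char : ∀ (σ : List Bool) (a y : ℕ),
      (if ψ σ (Nat.pair a ((List.range σ.length).findIdx fun n =>
          stopAt (ψ σ (Nat.pair a n)))) = some 0 then
          some ((List.range σ.length).findIdx fun n => stopAt (ψ σ (Nat.pair a n)))
        else none) = some y ↔
        (y ≤ σ.length ∧ ψ σ (Nat.pair a y) = some 0 ∧
          ∀ m < y, ∃ k, ψ σ (Nat.pair a m) = some (k + 1)) := by
    intro σ a y
    constructor
    · intro h
      split_ifs at h with h0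
      have hy := Option.some.inj h
      rw [hy] at h0
      have hle : y ≤ σ.length := by
        rw [← hy]
        simpa using List.findIdx_le_length (xs := List.range σ.length)
          (p := fun n => stopAt (ψ σ (Nat.pair a n)))
      refine ⟨hle, h0, ?_⟩
      intro m hm
      have hm' : m < (List.range σ.length).findIdx fun n => stopAt (ψ σ (Nat.pair a n)) := by
        rw [hy]; exact hm
      have h2 := List.not_of_lt_findIdx hm'
      simp only [List.getElem_range] at h2
      rcases hψ : ψ σ (Nat.pair a m) with _ | k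
      · simp [hψ, stopAt] at h2
      · simp only [hψ, stopAt, decide_eq_false_iff_not] at h2
        exact ⟨k - 1, by congr 1; omega⟩
    · rintro ⟨hle, h0, hpos⟩
      have hfi : ((List.range σ.length).findIdx fun n => stopAt (ψ σ (Nat.pair a n))) = y := by
        apply findIdx_range _ _ _ hle
        · intro m hm
          obtain ⟨k, hk⟩ := hpos m hm
          simp [hk, stopAt]
        · intro _
          simp [h0, stopAt]
      rw [hfi, if_pos h0]
  refine ⟨?_, ?_, ?_⟩
  · refine Primrec.ite ?_ (Primrec.option_some.comp hidx) (Primrec.const none)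
    refine Primrec.eq.comp ?_ (Primrec.const (some 0))
    exact p1.comp Primrec.fst (Primrec₂.natPair.comp Primrec.snd hidx)
  · intro σ τ a y hy
    rw [char] at hy ⊢
    obtain ⟨hle, h0, hpos⟩ := hy
    refine ⟨by rw [List.length_append]; omega, m1 _ _ _ _ h0, ?_⟩
    intro m hm
    obtain ⟨k, hk⟩ := hpos m hm
    exact ⟨k, m1 _ _ _ _ hk⟩
  · intro a y
    simp only [char]
    refine Nat.mem_rfind.trans ?_
    constructor
    · rintro ⟨h0, hpos⟩
      simp only [Part.map_eq_map, Part.mem_map_iff, decide_eq_true_eq] at h0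
      obtain ⟨z, hz, hz0⟩ := h0
      subst hz0
      rw [e1] at hz
      obtain ⟨s0, hs0⟩ := hz
      have hpos' : ∀ m < y, ∃ s k, ψ (res X s) (Nat.pair a m) = some (k + 1) := by
        intro m hm
        have := hpos hm
        simp only [Part.map_eq_map, Part.mem_map_iff, decide_eq_false_iff_not] at this
        obtain ⟨z, hz, hz0⟩ := this
        rw [e1] at hz
        obtain ⟨s, hs⟩ := hz
        exact ⟨s, z - 1, by rw [hs]; congr 1; omega⟩
      -- a common bound
      have hbd : ∃ t, ∀ m < y, ∃ k, ψ (res X t) (Nat.pair a m) = some (k + 1) := by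
        clear hs0 hpos
        induction y with
        | zero => exact ⟨0, fun m hm => absurd hm (by omega)⟩
        | succ y ih =>
          obtain ⟨t, ht⟩ := ih (fun m hm => hpos' m (by omega))
          obtain ⟨s, k, hk⟩ := hpos' y (by omega)
          refine ⟨max s t, fun m hm => ?_⟩
          rcases Nat.lt_succ_iff_lt_or_eq.1 hm with h | h
          · obtain ⟨k', hk'⟩ := ht m h
            exact ⟨k', m1.le X (le_max_right s t) hk'⟩
          · subst h
            exact ⟨k, m1.le X (le_max_left s t) hk⟩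
      obtain ⟨t, ht⟩ := hbd
      refine ⟨max y (max s0 t), ?_, ?_, ?_⟩
      · rw [res_length]; exact le_max_left _ _
      · exact m1.le X ((le_max_left s0 t).trans (le_max_right _ _)) hs0
      · intro m hm
        obtain ⟨k, hk⟩ := ht m hm
        exact ⟨k, m1.le X ((le_max_right s0 t).trans (le_max_right _ _)) hk⟩
    · rintro ⟨s, _, h0, hpos⟩
      refine ⟨?_, ?_⟩
      · simp only [Part.map_eq_map, Part.mem_map_iff, decide_eq_true_eq]
        exact ⟨0, (e1 _ _).2 ⟨s, h0⟩, rfl⟩
      · intro m hm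
        obtain ⟨k, hk⟩ := hpos m hm
        simp only [Part.map_eq_map, Part.mem_map_iff, decide_eq_false_iff_not]
        exact ⟨k + 1, (e1 _ _).2 ⟨s, hk⟩, by omega⟩

theorem rep_exists (X : ℕ → Bool) (f : ℕ →. ℕ) (hf : Nat.RecursiveIn {orc X} f) :
    ∃ ψ, Rep X ψ f := by
  induction hf with
  | zero => exact ⟨_, rep_prim X (fun _ => 0) (Primrec.const 0)⟩
  | succ => exact ⟨_, rep_prim X Nat.succ Primrec.succ⟩
  | left => exact ⟨_, rep_prim X (fun n => n.unpair.1) (Primrec.fst.comp Primrec.unpair)⟩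
  | right => exact ⟨_, rep_prim X (fun n => n.unpair.2) (Primrec.snd.comp Primrec.unpair)⟩
  | oracle g hg =>
    have hg' : g = orc X := hg
    rw [hg']
    exact ⟨_, rep_oracle X⟩
  | pair _ _ ih1 ih2 =>
    obtain ⟨ψ, h1⟩ := ih1
    obtain ⟨χ, h2⟩ := ih2
    exact ⟨_, rep_pair X _ _ ψ χ h1 h2⟩
  | comp _ _ ih1 ih2 =>
    obtain ⟨ψ, h1⟩ := ih1
    obtain ⟨χ, h2⟩ := ih2
    exact ⟨_, rep_comp X _ _ ψ χ h1 h2⟩
  | prec _ _ ih1 ih2 =>
    obtain ⟨ψ, h1⟩ := ih1
    obtain ⟨χ, h2⟩ := ih2
    exact ⟨_, rep_prec X _ _ ψ χ h1 h2⟩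
  | rfind _ ih =>
    obtain ⟨ψ, h1⟩ := ih
    exact ⟨_, rep_rfind X _ ψ h1⟩

end Pool.Agent.MP_e12961_lc
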