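import Mathlib

/-!
Strings, restrictions of sequences, a form of Koenig's lemma and finite counting.
-/

set_option autoImplicit false

namespace Pool.Agent.MP_e12961_lc

/-- The first `s` values of `X`. -/
def res (X : ℕ → Bool) (s : ℕ) : List Bool := (List.range s).map X

@[simp] theorem res_length (X : ℕ → Bool) (s : ℕ) : (res X s).length = s := by
  simp [res]

@[simp] theorem res_zero (X : ℕ → Bool) : res X 0 = [] := by
  simp [res]

theorem res_succ (X : ℕ → Bool) (s : ℕ) : res X (s + 1) = res X s ++ [X s] := by
  simp [res, List.range_succ]

theorem res_getElem? (X : ℕ → Bool) (s i : ℕ) (h : i < s) : (res X s)[i]? = some (X i) := by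
  simp [res, h]

theorem res_getD (X : ℕ → Bool) (s i : ℕ) (h : i < s) : (res X s).getD i false = X i := by
  simp [List.getD_eq_getElem?_getD, res_getElem? X s i h]

theorem res_take (X : ℕ → Bool) (s t : ℕ) (h : s ≤ t) : (res X t).take s = res X s := by
  apply List.ext_getElem?
  intro i
  by_cases hi : i < s
  · rw [List.getElem?_take_of_lt hi, res_getElem? X t i (by omega), res_getElem? X s i hi]
  · rw [List.getElem?_eq_none (by simp; omega), List.getElem?_eq_none (by simp; omega)]

/-- All strings of length `s`. -/
def strs : ℕ → List (List Bool)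
  | 0 => [[]]
  | s + 1 => (strs s).flatMap fun l => [l ++ [false], l ++ [true]]

theorem mem_strs (s : ℕ) (l : List Bool) : l ∈ strs s ↔ l.length = s := by
  induction s generalizing l with
  | zero => simp [strs]
  | succ s ih =>
    simp only [strs, List.mem_flatMap]
    constructor
    · rintro ⟨a, ha, hl⟩
      rw [ih] at ha
      simp at hl
      rcases hl with rfl | rfl <;> simp [ha]
    · intro hl
      have hne : l ≠ [] := by
        rintro rfl
        simp at hl
      refine ⟨l.dropLast, ?_, ?_⟩
      · rw [ih]
        simp [hl]
      · have h := List.dropLast_append_getLast hne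
        simp only [List.mem_cons, List.not_mem_nil, or_false]
        cases hb : l.getLast hne
        · left
          rw [hb] at h
          exact h.symm
        · right
          rw [hb] at h
          exact h.symm

theorem strs_nodup (s : ℕ) : (strs s).Nodup := by
  induction s with
  | zero => simp [strs]
  | succ s ih =>
    rw [strs, List.nodup_flatMap]
    refine ⟨fun a _ => by simp, ?_⟩
    refine ih.imp ?_
    intro a b hab
    rw [Function.onFun, List.disjoint_left]
    intro c hc hc'
    simp only [List.mem_cons, List.not_mem_nil, or_false] at hc hc'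
    apply hab
    rcases hc with rfl | rfl <;> rcases hc' with h | h <;>
      exact (List.append_inj' h rfl).1

theorem strs_length (s : ℕ) : (strs s).length = 2 ^ s := by
  induction s with
  | zero => simp [strs]
  | succ s ih =>
    simp only [strs, List.length_flatMap, List.length_cons, List.length_nil]
    simp [ih, pow_succ]

theorem res_mem_strs (X : ℕ → Bool) (s : ℕ) : res X s ∈ strs s := by
  rw [mem_strs]; simp

/-- The number of strings of length `s` with property `p`. -/
noncomputable def cnt (s : ℕ) (p : List Bool → Prop) : ℕ :=
  open Classical in ((strs s).toFinset.filter p).card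

theorem koenig (P : List Bool → Prop) (hpre : ∀ σ b, P (σ ++ [b]) → P σ)
    (hne : ∀ s, ∃ σ : List Bool, σ.length = s ∧ P σ) : ∃ X : ℕ → Bool, ∀ s, P (res X s) := by
  classical
  -- restriction to initial parts
  have hpre' : ∀ (τ σ : List Bool), P (σ ++ τ) → P σ := by
    intro τ
    induction τ using List.reverseRecOn with
    | nil => intro σ h; simpa using h
    | append_singleton τ b ih =>
      intro σ h
      apply ih
      apply hpre (σ ++ τ) b
      simpa using h
  let Ext : List Bool → Prop := fun σ => ∀ s, ∃ τ : List Bool, τ.length = s ∧ P (σ ++ τ)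
  have hnil : Ext [] := by
    intro s
    obtain ⟨σ, h1, h2⟩ := hne s
    exact ⟨σ, h1, by simpa using h2⟩
  have hstep : ∀ σ, Ext σ → ∃ b, Ext (σ ++ [b]) := by
    intro σ hσ
    by_contra hcon
    push Not at hcon
    have h0 := hcon false
    have h1 := hcon true
    simp only [Ext, not_forall] at h0 h1
    obtain ⟨s0, h0⟩ := h0
    obtain ⟨s1, h1⟩ := h1
    obtain ⟨τ, hτ1, hτ2⟩ := hσ (max s0 s1 + 1)
    cases τ with
    | nil => simp at hτ1
    | cons b τ =>
      have hlen : τ.length = max s0 s1 := by simpa using hτ1
      cases b with
      | false =>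
        apply h0
        refine ⟨τ.take s0, by simp [hlen], ?_⟩
        apply hpre' (τ.drop s0)
        have : (σ ++ [false] ++ τ.take s0) ++ τ.drop s0 = σ ++ false :: τ := by
          simp [List.append_assoc]
        rw [this]
        exact hτ2
      | true =>
        apply h1
        refine ⟨τ.take s1, by simp [hlen], ?_⟩
        apply hpre' (τ.drop s1)
        have : (σ ++ [true] ++ τ.take s1) ++ τ.drop s1 = σ ++ true :: τ := by
          simp [List.append_assoc]
        rw [this]
        exact hτ2
  choose! b hb using hstep
  let F : ℕ → List Bool := fun n => Nat.rec [] (fun _ σ => σ ++ [b σ]) n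
  have hF0 : F 0 = [] := rfl
  have hFs : ∀ n, F (n + 1) = F n ++ [b (F n)] := fun n => rfl
  have hExt : ∀ n, Ext (F n) := by
    intro n
    induction n with
    | zero => rw [hF0]; exact hnil
    | succ n ih => rw [hFs]; exact hb _ ih
  let X : ℕ → Bool := fun n => b (F n)
  have hres : ∀ n, res X n = F n := by
    intro n
    induction n with
    | zero => simp [hF0]
    | succ n ih => rw [res_succ, ih, hFs]
  refine ⟨X, fun s => ?_⟩
  rw [hres]
  obtain ⟨τ, hτ1, hτ2⟩ := hExt s 0
  have : τ = [] := List.eq_nil_of_length_eq_zero hτ1
  subst this
  simpa using hτ2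

end Pool.Agent.MP_e12961_lc
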