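import Pool.Agent.Lib.MP_e12961_lc.Basic

/-!
Finite counting over the strings of a given length.
-/

set_option autoImplicit false

namespace Pool.Agent.MP_e12961_lc

open Finset

/-- All strings of length `s` as a finset. -/
def S (s : ℕ) : Finset (List Bool) := (strs s).toFinset

theorem mem_S (s : ℕ) (l : List Bool) : l ∈ S s ↔ l.length = s := by
  simp [S, mem_strs]

theorem card_S (s : ℕ) : (S s).card = 2 ^ s := by
  rw [S, List.toFinset_card_of_nodup (strs_nodup s), strs_length]

theorem sum_S_zero (w : List Bool → ℝ) : ∑ γ ∈ S 0, w γ = w [] := by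
  simp [S, strs]

theorem sum_S_succ (s : ℕ) (w : List Bool → ℝ) :
    ∑ γ ∈ S (s + 1), w γ = ∑ γ ∈ S s, (w (γ ++ [false]) + w (γ ++ [true])) := by
  rw [S, S, List.sum_toFinset _ (strs_nodup _), List.sum_toFinset _ (strs_nodup _)]
  rw [strs]
  generalize strs s = L
  induction L with
  | nil => simp
  | cons a L ih =>
    simp only [List.flatMap_cons, List.map_append, List.sum_append, ih, List.map_cons,
      List.sum_cons]
    simp

theorem sum_prod (s : ℕ) (g : ℕ → Bool → ℝ) :
    ∑ γ ∈ S s, ∏ i ∈ range s, g i (γ.getD i false) =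
      ∏ i ∈ range s, (g i false + g i true) := by
  induction s with
  | zero => rw [sum_S_zero]; simp
  | succ s ih =>
    rw [sum_S_succ, Finset.prod_range_succ, ← ih, Finset.sum_mul]
    apply Finset.sum_congr rfl
    intro γ hγ
    rw [mem_S] at hγ
    rw [Finset.prod_range_succ, Finset.prod_range_succ]
    have h1 : ∀ b : Bool, (γ ++ [b]).getD s false = b := by
      intro b
      simp [List.getD_eq_getElem?_getD, ← hγ]
    have h2 : ∀ b : Bool, ∏ i ∈ range s, g i ((γ ++ [b]).getD i false) =
        ∏ i ∈ range s, g i (γ.getD i false) := by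
      intro b
      apply Finset.prod_congr rfl
      intro i hi
      rw [Finset.mem_range] at hi
      have : (γ ++ [b]).getD i false = γ.getD i false := by
        rw [List.getD_eq_getElem?_getD, List.getD_eq_getElem?_getD,
          List.getElem?_append_left (by omega)]
      rw [this]
    rw [h1, h1, h2, h2]
    ring

/-- The number of `i < m` at which `b` is defined and differs from the string `ω`. -/
def dis (m : ℕ) (b : ℕ → Option Bool) (ω : List Bool) : ℕ :=
  ((range m).filter fun i => b i = some (!(ω.getD i false))).card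

theorem dis_le (m : ℕ) (b : ℕ → Option Bool) (ω : List Bool) : dis m b ω ≤ m := by
  have := Finset.card_filter_le (range m) (fun i => b i = some (!(ω.getD i false)))
  simpa [dis] using this

theorem cnt_dis (s m : ℕ) (hm : m ≤ s) (b : ℕ → Option Bool) :
    (((S s).filter fun ω => 3 * m < 4 * dis m b ω).card : ℝ) ≤ 2 ^ s * (9 / 10 : ℝ) ^ m := by
  set g : ℕ → Bool → ℝ := fun i x =>
    if i < m then (if b i = some (!x) then 3 / 2 else 8 / 27) else 1 with hg
  have hgpos : ∀ i x, 0 ≤ g i x := by
    intro i x
    simp only [hg]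
    split_ifs <;> norm_num
  -- the weight of a string
  have hw : ∀ ω : List Bool, ∏ i ∈ range s, g i (ω.getD i false) =
      (3 / 2 : ℝ) ^ (dis m b ω) * (8 / 27 : ℝ) ^ (m - dis m b ω) := by
    intro ω
    have h1 : ∏ i ∈ range s, g i (ω.getD i false) =
        ∏ i ∈ range m, (if b i = some (!(ω.getD i false)) then (3 / 2 : ℝ) else 8 / 27) := by
      rw [← Finset.prod_range_mul_prod_Ico _ hm]
      have h2 : ∏ i ∈ Finset.Ico m s, g i (ω.getD i false) = 1 := by
        apply Finset.prod_eq_one
        intro i hi
        rw [Finset.mem_Ico] at hi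
        simp [hg, Nat.not_lt.mpr hi.1]
      rw [h2, mul_one]
      apply Finset.prod_congr rfl
      intro i hi
      rw [Finset.mem_range] at hi
      simp [hg, hi]
    rw [h1, Finset.prod_ite, Finset.prod_const, Finset.prod_const]
    have h3 : (filter (fun x => ¬b x = some (!(ω.getD x false))) (range m)).card =
        m - dis m b ω := by
      have := Finset.card_filter_add_card_filter_not (s := range m)
        (fun i => b i = some (!(ω.getD i false)))
      rw [Finset.card_range] at this
      simp only [dis]
      omega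
    rw [h3]
    rfl
  have hone : ∀ ω : List Bool, 3 * m < 4 * dis m b ω →
      1 ≤ ∏ i ∈ range s, g i (ω.getD i false) := by
    intro ω hω
    rw [hw]
    set d := dis m b ω
    have hd : d ≤ m := dis_le m b ω
    have e1 : (8 / 27 : ℝ) ^ (m - d) = (2 / 3 : ℝ) ^ (3 * (m - d)) := by
      rw [pow_mul]; norm_num
    have e2 : (2 / 3 : ℝ) ^ d ≤ (2 / 3 : ℝ) ^ (3 * (m - d)) := by
      apply pow_le_pow_of_le_one (by norm_num) (by norm_num)
      omega
    have e3 : (1 : ℝ) = (3 / 2 : ℝ) ^ d * (2 / 3 : ℝ) ^ d := by
      rw [← mul_pow]; norm_num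
    rw [e1, e3]
    exact mul_le_mul_of_nonneg_left e2 (by positivity)
  have hsum : (((S s).filter fun ω => 3 * m < 4 * dis m b ω).card : ℝ) ≤
      ∑ ω ∈ S s, ∏ i ∈ range s, g i (ω.getD i false) := by
    rw [Finset.card_eq_sum_ones, Finset.sum_filter]
    push_cast
    apply Finset.sum_le_sum
    intro ω _
    split_ifs with h
    · simpa using hone ω h
    · simpa using Finset.prod_nonneg (fun i _ => hgpos i _)
  refine hsum.trans ?_
  rw [sum_prod]
  have hfac : ∏ i ∈ range s, (g i false + g i true) ≤
      ∏ i ∈ range s, (if i < m then (9 / 5 : ℝ) else 2) := by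
    apply Finset.prod_le_prod
    · intro i _
      exact add_nonneg (hgpos _ _) (hgpos _ _)
    · intro i _
      by_cases hi : i < m
      · simp only [hg, hi, if_true]
        rcases b i with _ | x
        · simp only [reduceCtorEq, if_false]
          norm_num
        · cases x <;> norm_num
      · simp only [hg, hi, if_false]
        norm_num
  refine hfac.trans ?_
  rw [← Finset.prod_range_mul_prod_Ico _ hm]
  have h1 : ∏ i ∈ range m, (if i < m then (9 / 5 : ℝ) else 2) = (9 / 5) ^ m := by
    rw [Finset.prod_congr rfl (g := fun _ => (9 / 5 : ℝ))]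
    · rw [Finset.prod_const, Finset.card_range]
    · intro i hi
      rw [Finset.mem_range] at hi
      simp [hi]
  have h2 : ∏ i ∈ Finset.Ico m s, (if i < m then (9 / 5 : ℝ) else 2) = 2 ^ (s - m) := by
    rw [Finset.prod_congr rfl (g := fun _ => (2 : ℝ))]
    · simp
    · intro i hi
      rw [Finset.mem_Ico] at hi
      simp [Nat.not_lt.mpr hi.1]
  rw [h1, h2]
  have h3 : (2 : ℝ) ^ s = 2 ^ m * 2 ^ (s - m) := by
    rw [← pow_add]; congr 1; omega
  rw [h3]
  have h4 : (2 : ℝ) ^ m * 2 ^ (s - m) * (9 / 10) ^ m = (2 * (9 / 10)) ^ m * 2 ^ (s - m) := by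
    rw [mul_pow]; ring
  have h5 : (2 * (9 / 10) : ℝ) = 9 / 5 := by norm_num
  rw [h4, h5]

/-- The number of strings of length `s` with prescribed values on a finite set of positions. -/
theorem cnt_fixed (s : ℕ) (J : Finset ℕ) (hJ : ∀ i ∈ J, i < s) (b : ℕ → Bool) :
    (((S s).filter fun ω => ∀ i ∈ J, ω.getD i false = b i).card : ℝ) = 2 ^ s / 2 ^ J.card := by
  set g : ℕ → Bool → ℝ := fun i x => if i ∈ J then (if x = b i then 1 else 0) else 1 with hg
  have h1 : (((S s).filter fun ω => ∀ i ∈ J, ω.getD i false = b i).card : ℝ) =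
      ∑ ω ∈ S s, ∏ i ∈ range s, g i (ω.getD i false) := by
    rw [Finset.card_eq_sum_ones, Finset.sum_filter]
    push_cast
    apply Finset.sum_congr rfl
    intro ω _
    split_ifs with h
    · symm
      apply Finset.prod_eq_one
      intro i _
      simp only [hg]
      split_ifs with h5 h6
      · rfl
      · exact absurd (h i h5) h6
      · rfl
    · push Not at h
      obtain ⟨i, hi, hne⟩ := h
      symm
      apply Finset.prod_eq_zero (i := i)
      · simpa using hJ i hi
      · simp only [hg, if_pos hi, if_neg hne]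
  rw [h1, sum_prod]
  have h2 : ∀ i ∈ range s, (g i false + g i true) = if i ∈ J then 1 else 2 := by
    intro i _
    simp only [hg]
    split_ifs with h3 h4 h5 h6
    · rw [← h4] at h5; cases h5
    · norm_num
    · norm_num
    · cases hb : b i with
      | true => exact absurd hb.symm h6
      | false => exact absurd hb.symm h4
    · norm_num
  rw [Finset.prod_congr rfl h2, Finset.prod_ite, Finset.prod_const, Finset.prod_const, one_pow,
    one_mul]
  have h3 : (filter (fun i => i ∈ J) (range s)) = J := by
    ext i
    simp only [Finset.mem_filter, Finset.mem_range]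
    exact ⟨fun h => h.2, fun h => ⟨hJ i h, h⟩⟩
  have h4 := Finset.card_filter_add_card_filter_not (s := range s) (fun i => i ∈ J)
  rw [h3, Finset.card_range] at h4
  have h5 : (filter (fun i => ¬ i ∈ J) (range s)).card = s - J.card := by omega
  rw [h5, eq_div_iff (by positivity), ← pow_add]
  congr 1
  omega

end Pool.Agent.MP_e12961_lc
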