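import Pool.Agent.Lib.MP_e12961_lc.Hyp

/-!
Choice of the two sequences.
-/

set_option autoImplicit false

namespace Pool.Agent.MP_e12961_lc

open Nat.Partrec (Code)
open Encodable Denumerable Finset

theorem bad_double (σ τ : List Bool) (b c : Bool) (hl : τ.length = σ.length) :
    2 * bad σ τ ≤ bad (σ ++ [b]) (τ ++ [c]) := by
  classical
  rw [bad_eq_card, bad_eq_card, List.length_append, List.length_singleton]
  have h2 : ∀ d : Bool, ((S σ.length).filter fun γ => Hit σ (mix τ γ)).image (· ++ [d]) ⊆
      (S (σ.length + 1)).filter fun γ => Hit (σ ++ [b]) (mix (τ ++ [c]) γ) := by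
    intro d γ' hγ'
    rw [Finset.mem_image] at hγ'
    obtain ⟨γ, hγ, rfl⟩ := hγ'
    rw [Finset.mem_filter] at hγ ⊢
    have hlγ := (mem_S _ γ).1 hγ.1
    refine ⟨by rw [mem_S]; simp [hlγ], ?_⟩
    obtain ⟨ρ, hρ⟩ := mix_append τ γ [c] [d] (by omega)
    rw [hρ]
    exact hγ.2.mono _ _
  have h3 : Disjoint (((S σ.length).filter fun γ => Hit σ (mix τ γ)).image (· ++ [false]))
      (((S σ.length).filter fun γ => Hit σ (mix τ γ)).image (· ++ [true])) := by
    rw [Finset.disjoint_left]
    intro γ hγ hγ'
    rw [Finset.mem_image] at hγ hγ'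
    obtain ⟨γ1, _, rfl⟩ := hγ
    obtain ⟨γ2, _, h4⟩ := hγ'
    have := (List.append_inj' h4 rfl).2
    simp at this
  have h5 : ∀ d : Bool, (((S σ.length).filter fun γ => Hit σ (mix τ γ)).image (· ++ [d])).card
      = ((S σ.length).filter fun γ => Hit σ (mix τ γ)).card := by
    intro d
    apply Finset.card_image_of_injective
    intro x y hxy
    exact List.append_cancel_right hxy
  have h6 := Finset.card_le_card (Finset.union_subset (h2 false) (h2 true))
  rw [Finset.card_union_of_disjoint h3, h5, h5] at h6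
  omega

theorem exists_Y0 (X : ℕ → Bool) (hX : ∀ s, ¬ Rem (res X s)) :
    ∃ Y : ℕ → Bool, ∀ s, ¬ DNCbad (res Y s) ∧ 2 * bad (res X s) (res Y s) ≤ 2 ^ s := by
  obtain ⟨Y, hY⟩ := koenig
    (fun τ => ¬ DNCbad τ ∧ 2 * bad (res X τ.length) τ ≤ 2 ^ τ.length) (by
      intro τ b h
      rw [List.length_append, List.length_singleton, res_succ] at h
      refine ⟨fun hd => h.1 (hd.mono _), ?_⟩
      have h1 := bad_double (res X τ.length) τ (X τ.length) b (by rw [res_length])
      have h2 := h.2
      rw [pow_succ] at h2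
      omega) (by
      intro s
      have h1 := hX s
      unfold Rem at h1
      push Not at h1
      obtain ⟨τ, hτ, h2, h3⟩ := h1
      rw [mem_strs, res_length] at hτ
      rw [res_length, strs_length] at h3
      refine ⟨τ, hτ, h2, ?_⟩
      rw [hτ]
      exact h3)
  refine ⟨Y, fun s => ?_⟩
  have h1 := hY s
  rw [res_length] at h1
  exact h1

theorem cnt_fixed' (s : ℕ) (J : Finset ℕ) (hJ : ∀ i ∈ J, i < s) (b : ℕ → Bool) :
    ∃ F : Finset (List Bool), (F.card : ℝ) = 2 ^ s / 2 ^ J.card ∧
      ∀ ω ∈ S s, (∀ i ∈ J, ω.getD i false = b i) → ω ∈ F :=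
  ⟨_, cnt_fixed s J hJ b, fun _ hω h => Finset.mem_filter.2 ⟨hω, h⟩⟩

open Classical in
theorem bad_count (s e : ℕ) (hs : 8 * (e + 4) ≤ s) :
    (((S s).filter fun γ => Bad e (gs e γ)).card : ℝ) ≤ 2 ^ s / 2 ^ (e + 4) := by
  by_cases h : ∃ ρ, Bad e ρ ∧ ρ.length = e + 4
  · obtain ⟨ρ, hρ, hl⟩ := h
    obtain ⟨F, h1, hF⟩ := cnt_fixed' s ((range (e + 4)).image fun j => 8 * j + 1) (by
      intro i hi
      rw [Finset.mem_image] at hi
      obtain ⟨j, hj, rfl⟩ := hi
      rw [Finset.mem_range] at hj
      omega) (fun i => ρ.getD (i / 8) false)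
    have h2 : ((range (e + 4)).image fun j => 8 * j + 1).card = e + 4 := by
      rw [Finset.card_image_of_injective, Finset.card_range]
      intro a b hab
      simp only at hab
      omega
    rw [h2] at h1
    rw [← h1]
    have h3 : ((S s).filter fun γ => Bad e (gs e γ)) ⊆ F := by
      intro γ hγ
      rw [Finset.mem_filter] at hγ
      refine hF γ hγ.1 ?_
      intro i hi
      rw [Finset.mem_image] at hi
      obtain ⟨j, hj, rfl⟩ := hi
      rw [Finset.mem_range] at hj
      have h4 := Bad_unique e _ _ hγ.2 hρ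
      rw [← h4]
      have h5 : (8 * j + 1) / 8 = j := by omega
      rw [h5]
      unfold gs
      rw [List.getD_eq_getElem?_getD, List.getD_eq_getElem?_getD, List.getElem?_map]
      rw [List.getElem?_range hj]
      simp [List.getD_eq_getElem?_getD]
    exact_mod_cast Finset.card_le_card h3
  · have h1 : ((S s).filter fun γ => Bad e (gs e γ)) = ∅ := by
      rw [Finset.filter_eq_empty_iff]
      intro γ _ hb
      apply h
      exact ⟨_, hb, by simp [gs]⟩
    rw [h1]
    simp only [Finset.card_empty, Nat.cast_zero]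
    positivity

/-- The conditions imposed on the second sequence. -/
def Good (X Y : ℕ → Bool) (γ : List Bool) : Prop :=
  ¬ Hit (res X γ.length) (mix (res Y γ.length) γ) ∧
    (∀ e, 8 * (e + 4) ≤ γ.length → ¬ Bad e (gs e γ)) ∧ ¬ Hit γ (res X γ.length)

theorem Good_pre (X Y : ℕ → Bool) (γ : List Bool) (b : Bool) (h : Good X Y (γ ++ [b])) :
    Good X Y γ := by
  obtain ⟨h1, h2, h3⟩ := h
  rw [List.length_append, List.length_singleton] at h1 h2 h3
  rw [res_succ] at h1 h3
  refine ⟨fun h => ?_, fun e he hb => ?_, fun h => ?_⟩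
  · rw [res_succ] at h1
    obtain ⟨ρ, hρ⟩ := mix_append (res Y γ.length) γ [Y γ.length] [b] (by rw [res_length])
    rw [hρ] at h1
    exact h1 (h.mono _ _)
  · apply h2 e (by omega)
    rw [gs_append e γ [b] he]
    exact hb
  · exact h3 (h.mono _ _)

theorem exists_Good (X Y : ℕ → Bool) (hY : ∀ s, 2 * bad (res X s) (res Y s) ≤ 2 ^ s) (s : ℕ) :
    ∃ γ : List Bool, γ.length = s ∧ Good X Y γ := by
  classical
  by_contra hcon
  push Not at hcon
  have h1 : S s ⊆ ((S s).filter fun γ => Hit (res X s) (mix (res Y s) γ)) ∪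
      (((range s).filter fun e => 8 * (e + 4) ≤ s).biUnion fun e =>
        (S s).filter fun γ => Bad e (gs e γ)) ∪
      ((S s).filter fun γ => Hit γ (res X s)) := by
    intro γ hγ
    have hl := (mem_S s γ).1 hγ
    have h2 := hcon γ hl
    rw [Finset.mem_union, Finset.mem_union]
    by_contra h3
    push Not at h3
    obtain ⟨⟨h4, h5⟩, h6⟩ := h3
    apply h2
    refine ⟨?_, ?_, ?_⟩
    · rw [hl]
      intro h
      apply h4
      rw [Finset.mem_filter]
      exact ⟨hγ, h⟩
    · intro e he hb
      rw [hl] at he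
      apply h5
      rw [Finset.mem_biUnion]
      refine ⟨e, ?_, ?_⟩
      · rw [Finset.mem_filter, Finset.mem_range]
        exact ⟨by omega, he⟩
      · rw [Finset.mem_filter]
        exact ⟨hγ, hb⟩
    · rw [hl]
      intro h
      apply h6
      rw [Finset.mem_filter]
      exact ⟨hγ, h⟩
  have h2 := (Finset.card_le_card h1).trans ((Finset.card_union_le _ _).trans
    (Nat.add_le_add_right (Finset.card_union_le _ _) _))
  rw [card_S] at h2
  have hA : (((S s).filter fun γ => Hit (res X s) (mix (res Y s) γ)).card : ℝ) ≤ 2 ^ s / 2 := by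
    have h3 := hY s
    rw [bad_eq_card, res_length] at h3
    have h4 : ((2 * ((S s).filter fun γ => Hit (res X s) (mix (res Y s) γ)).card : ℕ) : ℝ) ≤
        ((2 ^ s : ℕ) : ℝ) := by exact_mod_cast h3
    push_cast at h4
    linarith
  have hB : ((((range s).filter fun e => 8 * (e + 4) ≤ s).biUnion fun e =>
        (S s).filter fun γ => Bad e (gs e γ)).card : ℝ) ≤ 2 ^ s / 8 := by
    have h3 : ((((range s).filter fun e => 8 * (e + 4) ≤ s).biUnion fun e =>
        (S s).filter fun γ => Bad e (gs e γ)).card : ℝ) ≤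
        ((∑ e ∈ ((range s).filter fun e => 8 * (e + 4) ≤ s),
          ((S s).filter fun γ => Bad e (gs e γ)).card : ℕ) : ℝ) := by
      exact_mod_cast Finset.card_biUnion_le
    refine h3.trans ?_
    push_cast
    have h4 : ∑ e ∈ ((range s).filter fun e => 8 * (e + 4) ≤ s),
          (((S s).filter fun γ => Bad e (gs e γ)).card : ℝ) ≤
        ∑ e ∈ ((range s).filter fun e => 8 * (e + 4) ≤ s), (2 : ℝ) ^ s / 2 ^ (e + 4) := by
      apply Finset.sum_le_sum
      intro e he
      rw [Finset.mem_filter] at he
      exact bad_count s e he.2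
    refine h4.trans ?_
    have h5 : ∑ e ∈ ((range s).filter fun e => 8 * (e + 4) ≤ s), (2 : ℝ) ^ s / 2 ^ (e + 4) ≤
        ∑ e ∈ range s, (2 : ℝ) ^ s / 2 ^ (e + 4) := by
      apply Finset.sum_le_sum_of_subset_of_nonneg (Finset.filter_subset _ _)
      intro i _ _
      positivity
    refine h5.trans ?_
    have h6 : ∀ e : ℕ, (2 : ℝ) ^ s / 2 ^ (e + 4) = 2 ^ s / 16 * (1 / 2) ^ e := by
      intro e
      rw [pow_add, one_div, inv_pow]
      field_simp
      norm_num
    simp only [h6]
    rw [← Finset.mul_sum]
    have h7 : ∑ e ∈ range s, (1 / 2 : ℝ) ^ e ≤ 2 := by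
      have h8 := geom_sum_Ico_le_of_lt_one (m := 0) (n := s) (x := (1 / 2 : ℝ))
        (by norm_num) (by norm_num)
      rw [Nat.Ico_zero_eq_range] at h8
      refine h8.trans ?_
      norm_num
    have h9 : (0 : ℝ) < 2 ^ s := by positivity
    nlinarith
  have hC := hit_count s (res X s)
  have h3 : ((2 ^ s : ℕ) : ℝ) ≤
      (((S s).filter fun γ => Hit (res X s) (mix (res Y s) γ)).card +
      (((range s).filter fun e => 8 * (e + 4) ≤ s).biUnion fun e =>
        (S s).filter fun γ => Bad e (gs e γ)).card +
      ((S s).filter fun γ => Hit γ (res X s)).card : ℕ) := by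
    exact_mod_cast h2
  push_cast at h3
  have h9 : (0 : ℝ) < 2 ^ s := by positivity
  linarith

theorem exists_G (X Y : ℕ → Bool) (hY : ∀ s, 2 * bad (res X s) (res Y s) ≤ 2 ^ s) :
    ∃ G : ℕ → Bool, ∀ s, Good X Y (res G s) :=
  koenig (Good X Y) (Good_pre X Y) (exists_Good X Y hY)

/-- If `W` is never caught by the test with oracle `Z`, every sequence computable from `Z`
differs from `W` on at most three quarters of each long initial segment. -/
theorem dist_of_notHit (W Z B : ℕ → Bool) (hW : ∀ s, ¬ Hit (res W s) (res Z s))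
    (hB : TR Z (fun n => (B n).toNat)) :
    ∃ m0, ∀ m ≥ m0, 4 * ((range m).filter fun i => W i ≠ B i).card ≤ 3 * m := by
  obtain ⟨e, he⟩ := Phi_exists Z _ hB
  refine ⟨nE e, fun m hm => ?_⟩
  by_contra hcon
  push Not at hcon
  -- a stage at which all the bits below `m` are known
  have hst : ∀ m, ∃ s, ∀ i < m, Phi e (res Z s) i = some (B i).toNat := by
    intro m
    induction m with
    | zero => exact ⟨0, fun i hi => absurd hi (by omega)⟩
    | succ m ih =>
      obtain ⟨s, hs⟩ := ih
      obtain ⟨t, ht⟩ := he m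
      refine ⟨max s t, fun i hi => ?_⟩
      rcases Nat.lt_succ_iff_lt_or_eq.1 hi with h | h
      · exact (Phi_mono e).le Z (le_max_left s t) (hs i h)
      · subst h
        exact (Phi_mono e).le Z (le_max_right s t) ht
  obtain ⟨s, hs⟩ := hst m
  have hem : e < m := by
    unfold nE at hm
    omega
  apply hW (max s m)
  refine ⟨e, ?_, m, ?_, hm, ?_⟩
  · rw [res_length]
    exact lt_of_lt_of_le hem (le_max_right _ _)
  · rw [res_length]
    exact Nat.lt_succ_of_le (le_max_right _ _)
  · refine lt_of_lt_of_le hcon ?_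
    apply Nat.mul_le_mul_left
    unfold dis
    apply Finset.card_le_card
    intro i hi
    rw [Finset.mem_filter, Finset.mem_range] at hi ⊢
    refine ⟨hi.1, ?_⟩
    rw [res_getD W _ i (lt_of_lt_of_le hi.1 (le_max_right _ _))]
    unfold pb
    rw [(Phi_mono e).le Z (le_max_left s m) (hs i hi.1), Option.map_some]
    have h1 := hi.2
    cases h2 : W i <;> cases h3 : B i <;> simp_all

theorem main : ∃ X Y : ℕ → Bool,
    (∀ f : ℕ → ℕ, TR X f → ∃ g : ℕ → ℕ, Computable g ∧ ∀ n, f n ≤ g n) ∧
    (∃ f : ℕ → ℕ, TR Y f ∧ ¬ ∃ g : ℕ → ℕ, Computable g ∧ ∀ n, f n ≤ g n) ∧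
    (∃ f : ℕ → ℕ, TR Y f ∧ (∀ n, f n ≤ 1) ∧
      ∀ c : Code, ∀ y : ℕ, y ∈ c.eval (encode c) → f (encode c) ≠ y) ∧
    (∀ A : ℕ → Bool, TR X (fun n => (A n).toNat) →
      ∃ m0, ∀ m ≥ m0, 8 * ((range m).filter fun i => A i ≠ Y i).card ≤ 7 * m + 8) ∧
    (∀ B : ℕ → Bool, TR Y (fun n => (B n).toNat) →
      ∃ m0, ∀ m ≥ m0, 4 * ((range m).filter fun i => X i ≠ B i).card ≤ 3 * m) := by
  obtain ⟨X, hX⟩ := exists_path
  obtain ⟨Y0, hY0⟩ := exists_Y0 X (fun s => (hX 0 s).1)
  obtain ⟨G, hG⟩ := exists_G X Y0 (fun s => (hY0 s).2)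
  refine ⟨X, mixS Y0 G, hif X hX, ?_, ?_, ?_, ?_⟩
  · apply hyp
    intro e s hs
    rw [gs_res e Y0 G s hs]
    have h1 := (hG s).2.1 e
    rw [res_length] at h1
    exact h1 hs
  · refine ⟨fun k => (mixS Y0 G (8 * k)).toNat, ?_, ?_, ?_⟩
    · exact (TR.oracle (mixS Y0 G)).comp
        (TR.prim (Primrec.nat_mul.comp (Primrec.const 8) Primrec.id))
    · intro n
      exact Bool.toNat_le _
    · intro c y hy hcon
      have h1 : mixS Y0 G (8 * encode c) = Y0 (8 * encode c) := by
        unfold mixS
        rw [if_pos (by omega)]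
      simp only [h1] at hcon
      obtain ⟨t, ht⟩ := Code.evaln_complete.1 hy
      apply (hY0 (max t (8 * encode c + 1))).1
      refine ⟨encode c, ?_, ?_, ?_⟩
      · rw [res_length]
        have := le_max_right t (8 * encode c + 1)
        omega
      · rw [res_length]
        have := le_max_right t (8 * encode c + 1)
        omega
      · rw [res_length, res_getD Y0 _ _ (by
          have := le_max_right t (8 * encode c + 1)
          omega), hcon, Denumerable.ofNat_encode]
        exact Code.evaln_mono (le_max_left _ _) ht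
  · intro A hA
    obtain ⟨m0, hm0⟩ := dist_of_notHit G X A (fun s => by
      have h1 := (hG s).2.2
      rw [res_length] at h1
      exact h1) hA
    refine ⟨m0, fun m hm => ?_⟩
    have h1 := hm0 m hm
    have h2 : ((range m).filter fun i => A i ≠ mixS Y0 G i) ⊆
        ((range m).filter fun i => G i ≠ A i) ∪ ((range m).filter fun i => i % 8 = 0) := by
      intro i hi
      rw [Finset.mem_filter] at hi
      rw [Finset.mem_union, Finset.mem_filter, Finset.mem_filter]
      by_cases h3 : i % 8 = 0
      · right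
        exact ⟨hi.1, h3⟩
      · left
        refine ⟨hi.1, ?_⟩
        have h4 : mixS Y0 G i = G i := by
          unfold mixS
          rw [if_neg h3]
        rw [h4] at hi
        exact fun h => hi.2 h.symm
    have h3 : 8 * ((range m).filter fun i => i % 8 = 0).card ≤ m + 8 := by
      clear h2 h1 hm
      induction m using Nat.strong_induction_on with
      | _ m ih =>
        rcases Nat.lt_or_ge m 8 with h | h
        · interval_cases m <;> decide
        · have h4 := ih (m - 8) (by omega)
          have h5 : ((range m).filter fun i => i % 8 = 0).card =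
              ((range (m - 8)).filter fun i => i % 8 = 0).card + 1 := by
            have h6 : m = (m - 8) + 8 := by omega
            generalize m - 8 = n at h6
            subst h6
            have h7 : (range (n + 8)).filter (fun i => i % 8 = 0) =
                ((range 8).filter fun i => i % 8 = 0) ∪
                ((range n).filter fun i => i % 8 = 0).image (· + 8) := by
              ext i
              simp only [Finset.mem_filter, Finset.mem_range, Finset.mem_union,
                Finset.mem_image]
              constructor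
              · rintro ⟨h8, h9⟩
                rcases Nat.lt_or_ge i 8 with h10 | h10
                · left; exact ⟨h10, h9⟩
                · right; exact ⟨i - 8, ⟨by omega, by omega⟩, by omega⟩
              · rintro (⟨h8, h9⟩ | ⟨j, ⟨h8, h9⟩, rfl⟩)
                · exact ⟨by omega, h9⟩
                · exact ⟨by omega, by omega⟩
            rw [h7, Finset.card_union_of_disjoint, Finset.card_image_of_injective]
            · have : ((range 8).filter fun i => i % 8 = 0).card = 1 := by decide
              omega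
            · intro a b hab
              simpa using hab
            · rw [Finset.disjoint_left]
              intro a ha hb
              simp only [Finset.mem_filter, Finset.mem_range, Finset.mem_image] at ha hb
              obtain ⟨j, _, hj⟩ := hb
              omega
          rw [h5]
          omega
    have h4 := (Finset.card_le_card h2).trans (Finset.card_union_le _ _)
    omega
  · intro B hB
    exact dist_of_notHit X (mixS Y0 G) B (fun s => by
      have h1 := (hG s).1
      rw [res_length, mix_res] at h1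
      exact h1) hB

end Pool.Agent.MP_e12961_lc
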