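import Pool.Agent.Lib.MP_e12961_lc.Tree

/-!
A functional computing a function that is not majorised by any computable function, defined for
every sequence outside a set of small measure.
-/

set_option autoImplicit false

namespace Pool.Agent.MP_e12961_lc

open Nat.Partrec (Code)
open Encodable Denumerable Finset

/-- The state of the `e`-th strategy at time `t`: the number of the current round and its start. -/
def st (e : ℕ) : ℕ → ℕ × ℕ
  | 0 => (0, 0)
  | t + 1 => if (Code.evaln t (ofNat Code e) (Nat.pair e (st e t).2)).isSome = true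
      then ((st e t).1 + 1, t + 1) else st e t

theorem primrec_st : Primrec₂ st := by
  have h := Primrec.nat_rec' (α := ℕ × ℕ) (β := ℕ × ℕ) (f := fun q => q.2)
    (g := fun _ => ((0, 0) : ℕ × ℕ))
    (h := fun q r => if (Code.evaln r.1 (ofNat Code q.1) (Nat.pair q.1 r.2.2)).isSome = true
      then (r.2.1 + 1, r.1 + 1) else r.2) Primrec.snd (Primrec.const (0, 0)) (by
    have hr : Primrec fun z : (ℕ × ℕ) × (ℕ × (ℕ × ℕ)) => z.2 := Primrec.snd
    have hr1 : Primrec fun z : (ℕ × ℕ) × (ℕ × (ℕ × ℕ)) => z.2.1 := Primrec.fst.comp hr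
    have hr2 : Primrec fun z : (ℕ × ℕ) × (ℕ × (ℕ × ℕ)) => z.2.2 := Primrec.snd.comp hr
    have hq1 : Primrec fun z : (ℕ × ℕ) × (ℕ × (ℕ × ℕ)) => z.1.1 :=
      Primrec.fst.comp Primrec.fst
    refine Primrec.ite ?_ ?_ hr2
    · refine Primrec.eq.comp ?_ (Primrec.const true)
      refine Primrec.option_isSome.comp ?_
      exact Code.primrec_evaln.comp ((hr1.pair ((Primrec.ofNat Code).comp hq1)).pair
        (Primrec₂.natPair.comp hq1 (Primrec.snd.comp hr2)))
    · exact Primrec.pair (Primrec.succ.comp (Primrec.fst.comp hr2)) (Primrec.succ.comp hr1))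
  refine h.of_eq ?_
  rintro ⟨e, t⟩
  induction t with
  | zero => rfl
  | succ t ih =>
    dsimp only at ih ⊢
    rw [st, ← ih]

theorem st_start (e t : ℕ) : (st e t).2 ≤ t ∧ st e (st e t).2 = st e t := by
  induction t with
  | zero => simp [st]
  | succ t ih =>
    by_cases h : (Code.evaln t (ofNat Code e) (Nat.pair e (st e t).2)).isSome = true
    · have h1 : st e (t + 1) = ((st e t).1 + 1, t + 1) := by rw [st, if_pos h]
      rw [h1]
      exact ⟨le_refl _, h1⟩
    · have h1 : st e (t + 1) = st e t := by rw [st, if_neg h]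
      rw [h1]
      exact ⟨ih.1.trans (Nat.le_succ t), ih.2⟩

theorem st_stay (e k m t : ℕ) (hm : st e m = (k, m)) (hmt : m ≤ t)
    (h : ∀ u < t, m ≤ u → (Code.evaln u (ofNat Code e) (Nat.pair e m)).isSome = false) :
    st e t = (k, m) := by
  induction t with
  | zero =>
    have : m = 0 := by omega
    subst this
    exact hm
  | succ t ih =>
    rcases Nat.lt_or_ge t m with h1 | h1
    · have : m = t + 1 := by omega
      rw [← this]
      exact hm
    · have h2 := ih h1 (fun u hu hmu => h u (by omega) hmu)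
      rw [st, h2]
      have h3 := h t (by omega) h1
      simp [h3]

theorem st_unique (e k m k' m' : ℕ) (hm : st e m = (k, m)) (hm' : st e m' = (k', m'))
    (h : ¬ (Code.eval (ofNat Code e) (Nat.pair e m)).Dom) (hle : m ≤ m') :
    k = k' ∧ m = m' := by
  have h1 : st e m' = (k, m) := by
    apply st_stay e k m m' hm hle
    intro u _ _
    by_contra hcon
    rw [Bool.not_eq_false, Option.isSome_iff_exists] at hcon
    obtain ⟨x, hx⟩ := hcon
    exact h (Part.dom_iff_mem.2 ⟨x, Code.evaln_sound hx⟩)
  rw [hm'] at h1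
  exact ⟨(congrArg Prod.fst h1).symm, (congrArg Prod.snd h1).symm⟩

/-- `ρ` selects a round of the `e`-th strategy that waits forever. -/
def Bad (e : ℕ) (ρ : List Bool) : Prop :=
  ∃ k m, st e m = (k, m) ∧ (strs (e + 4))[k]? = some ρ ∧
    ¬ (Code.eval (ofNat Code e) (Nat.pair e m)).Dom

theorem Bad_unique (e : ℕ) (ρ ρ' : List Bool) (h : Bad e ρ) (h' : Bad e ρ') : ρ = ρ' := by
  obtain ⟨k, m, h1, h2, h3⟩ := h
  obtain ⟨k', m', h1', h2', h3'⟩ := h'
  have hk : k = k' := by
    rcases Nat.le_total m m' with hle | hle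
    · exact (st_unique e k m k' m' h1 h1' h3 hle).1
    · exact (st_unique e k' m' k m h1' h1 h3' hle).1.symm
  subst hk
  rw [h2] at h2'
  exact Option.some.inj h2'

/-- The guess read off from a string. -/
def gs (e : ℕ) (η : List Bool) : List Bool :=
  (List.range (e + 4)).map fun j => η.getD (8 * j + 1) false

theorem primrec_gs : Primrec₂ gs := by
  unfold gs
  refine Primrec.list_map (f := fun q : ℕ × List Bool => List.range (q.1 + 4))
    (g := fun q j => q.2.getD (8 * j + 1) false) ?_ ?_
  · exact Primrec.list_range.comp (Primrec.nat_add.comp Primrec.fst (Primrec.const 4))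
  · exact (Primrec.list_getD false).comp (Primrec.snd.comp Primrec.fst)
      (Primrec.succ.comp (Primrec.nat_mul.comp (Primrec.const 8) Primrec.snd))

theorem gs_append (e : ℕ) (η τ : List Bool) (h : 8 * (e + 4) ≤ η.length) :
    gs e (η ++ τ) = gs e η := by
  unfold gs
  apply List.map_congr_left
  intro j hj
  rw [List.mem_range] at hj
  exact getD_append_of_lt η τ _ (by omega)

theorem gs_res (e : ℕ) (Y G : ℕ → Bool) (s : ℕ) (h : 8 * (e + 4) ≤ s) :
    gs e (res (mixS Y G) s) = gs e (res G s) := by
  unfold gs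
  apply List.map_congr_left
  intro j hj
  rw [List.mem_range] at hj
  rw [res_getD _ _ _ (by omega), res_getD _ _ _ (by omega)]
  unfold mixS
  rw [if_neg (by omega)]

/-- The functional. -/
def psi (η : List Bool) (p : ℕ) : Option ℕ :=
  if 8 * (p.unpair.1 + 4) ≤ η.length then
    (if (st p.unpair.1 p.unpair.2).2 = p.unpair.2 ∧
        (strs (p.unpair.1 + 4))[(st p.unpair.1 p.unpair.2).1]? = some (gs p.unpair.1 η) then
      (Code.evaln η.length (ofNat Code p.unpair.1) p).map Nat.succ
    else some 0)
  else none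

theorem primrec_psi : Primrec₂ psi := by
  have hη : Primrec fun q : List Bool × ℕ => q.1 := Primrec.fst
  have hlen : Primrec fun q : List Bool × ℕ => q.1.length := Primrec.list_length.comp hη
  have hp : Primrec fun q : List Bool × ℕ => q.2 := Primrec.snd
  have he : Primrec fun q : List Bool × ℕ => q.2.unpair.1 :=
    Primrec.fst.comp (Primrec.unpair.comp hp)
  have hm : Primrec fun q : List Bool × ℕ => q.2.unpair.2 :=
    Primrec.snd.comp (Primrec.unpair.comp hp)
  have hst : Primrec fun q : List Bool × ℕ => st q.2.unpair.1 q.2.unpair.2 :=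
    primrec_st.comp he hm
  unfold psi
  refine Primrec.ite ?_ (Primrec.ite ?_ ?_ (Primrec.const (some 0))) (Primrec.const none)
  · exact Primrec.nat_le.comp (Primrec.nat_mul.comp (Primrec.const 8)
      (Primrec.nat_add.comp he (Primrec.const 4))) hlen
  · refine PrimrecPred.and (Primrec.eq.comp (Primrec.snd.comp hst) hm) ?_
    refine Primrec.eq.comp ?_ (Primrec.option_some.comp (primrec_gs.comp he hη))
    exact Primrec.list_getElem?.comp
      (primrec_strs.comp (Primrec.nat_add.comp he (Primrec.const 4))) (Primrec.fst.comp hst)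
  · refine Primrec.option_map (f := fun q : List Bool × ℕ =>
      Code.evaln q.1.length (ofNat Code q.2.unpair.1) q.2) (g := fun _ y => Nat.succ y) ?_ ?_
    · exact Code.primrec_evaln.comp ((hlen.pair ((Primrec.ofNat Code).comp he)).pair hp)
    · exact Primrec.succ.comp Primrec.snd

theorem psi_mono : Mono psi := by
  intro σ τ p y h
  unfold psi at h ⊢
  split_ifs at h with h1 h2
  · rw [if_pos (by rw [List.length_append]; omega), gs_append _ _ _ h1, if_pos h2]
    rw [Option.map_eq_some_iff] at h ⊢
    obtain ⟨z, hz, hy⟩ := h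
    exact ⟨z, Code.evaln_mono (by rw [List.length_append]; omega) hz, hy⟩
  · rw [if_pos (by rw [List.length_append]; omega), gs_append _ _ _ h1, if_neg h2]
    exact h

theorem psi_total (Y : ℕ → Bool)
    (hY : ∀ e s, 8 * (e + 4) ≤ s → ¬ Bad e (gs e (res Y s))) (p : ℕ) :
    ∃ s y, psi (res Y s) p = some y := by
  set e := p.unpair.1 with he
  set m := p.unpair.2 with hm
  by_cases h2 : (st e m).2 = m ∧ (strs (e + 4))[(st e m).1]? =
      some (gs e (res Y (8 * (e + 4))))
  · have h3 : (Code.eval (ofNat Code e) (Nat.pair e m)).Dom := by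
      by_contra hcon
      apply hY e (8 * (e + 4)) le_rfl
      refine ⟨(st e m).1, m, ?_, h2.2, hcon⟩
      ext
      · rfl
      · exact h2.1
    have hp : Nat.pair e m = p := by rw [he, hm, Nat.pair_unpair]
    rw [hp] at h3
    obtain ⟨x, hx⟩ := Part.dom_iff_mem.1 h3
    obtain ⟨t, ht⟩ := Code.evaln_complete.1 hx
    refine ⟨max t (8 * (e + 4)), Nat.succ x, ?_⟩
    unfold psi
    rw [← he, ← hm, res_length, if_pos (le_max_right _ _)]
    have h4 : gs e (res Y (max t (8 * (e + 4)))) = gs e (res Y (8 * (e + 4))) := by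
      obtain ⟨τ, hτ⟩ := res_append Y (8 * (e + 4)) (max t (8 * (e + 4))) (le_max_right _ _)
      rw [hτ]
      exact gs_append _ _ _ (by rw [res_length])
    rw [h4, if_pos h2]
    have h5 : Code.evaln (max t (8 * (e + 4))) (ofNat Code e) p = some x :=
      Code.evaln_mono (le_max_left _ _) ht
    rw [h5]
    rfl
  · refine ⟨8 * (e + 4), 0, ?_⟩
    unfold psi
    rw [← he, ← hm, res_length, if_pos le_rfl, if_neg h2]

theorem round_start (c : Code) (hc : ∀ n, (Code.eval c n).Dom) (k : ℕ) :
    ∃ m, st (encode c) m = (k, m) := by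
  induction k with
  | zero => exact ⟨0, rfl⟩
  | succ k ih =>
    obtain ⟨m, hm⟩ := ih
    obtain ⟨x, hx⟩ := Part.dom_iff_mem.1 (hc (Nat.pair (encode c) m))
    obtain ⟨t, ht⟩ := Code.evaln_complete.1 hx
    have hex : ∃ t, m ≤ t ∧
        (Code.evaln t (ofNat Code (encode c)) (Nat.pair (encode c) m)).isSome = true := by
      refine ⟨max m t, le_max_left _ _, ?_⟩
      rw [Denumerable.ofNat_encode]
      have := Code.evaln_mono (le_max_right m t) ht
      rw [Option.mem_def.1 this]
      rfl
    classical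
    obtain ⟨h1, h2⟩ := Nat.find_spec hex
    have h3 := fun u => Nat.find_min hex (m := u)
    generalize Nat.find hex = t' at h1 h2 h3
    have h4 : st (encode c) t' = (k, m) := by
      apply st_stay _ _ _ _ hm h1
      intro u hu hmu
      have h5 := h3 u hu
      by_contra hcon
      rw [Bool.not_eq_false] at hcon
      exact h5 ⟨hmu, hcon⟩
    refine ⟨t' + 1, ?_⟩
    rw [st, h4]
    simp only
    rw [if_pos h2]

theorem hyp (Y : ℕ → Bool) (hY : ∀ e s, 8 * (e + 4) ≤ s → ¬ Bad e (gs e (res Y s))) :
    ∃ f : ℕ → ℕ, TR Y f ∧ ¬ ∃ g : ℕ → ℕ, Computable g ∧ ∀ n, f n ≤ g n := by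
  have htot := psi_total Y hY
  choose s f hf using htot
  have huniq : ∀ n s y, psi (res Y s) n = some y → y = f n := by
    intro n t y h
    exact psi_mono.uniq Y h (hf n)
  refine ⟨f, TR.of_search primrec_psi huniq (fun n => ⟨s n, f n, hf n⟩), ?_⟩
  rintro ⟨g, hg, hle⟩
  obtain ⟨c, hc⟩ := Code.exists_code.1 (Partrec.nat_iff.1 hg.partrec)
  have hc' : ∀ n, Code.eval c n = Part.some (g n) := by
    intro n
    rw [hc]
    rfl
  have hmem : gs (encode c) (res Y (8 * (encode c + 4))) ∈ strs (encode c + 4) := by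
    rw [mem_strs]
    simp [gs]
  obtain ⟨k, hk⟩ := List.mem_iff_getElem?.1 hmem
  obtain ⟨m, hm⟩ := round_start c (fun n => by rw [hc']; trivial) k
  set p := Nat.pair (encode c) m with hp
  obtain ⟨t, ht⟩ := Code.evaln_complete.1 (show g p ∈ Code.eval c p by rw [hc']; simp)
  have h1 : psi (res Y (max t (8 * (encode c + 4)))) p = some (g p + 1) := by
    unfold psi
    rw [hp, Nat.unpair_pair, ← hp, res_length]
    dsimp only
    rw [if_pos (le_max_right _ _)]
    have h4 : gs (encode c) (res Y (max t (8 * (encode c + 4)))) =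
        gs (encode c) (res Y (8 * (encode c + 4))) := by
      obtain ⟨τ, hτ⟩ := res_append Y (8 * (encode c + 4)) (max t (8 * (encode c + 4)))
        (le_max_right _ _)
      rw [hτ]
      exact gs_append _ _ _ (by rw [res_length])
    rw [h4, hm, if_pos ⟨rfl, hk⟩, Denumerable.ofNat_encode]
    have h5 : Code.evaln (max t (8 * (encode c + 4))) c p = some (g p) :=
      Code.evaln_mono (le_max_left _ _) ht
    rw [h5]
    rfl
  have h2 := huniq _ _ _ h1
  have h3 := hle p
  omega

end Pool.Agent.MP_e12961_lc
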