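import Pool.Agent.Lib.MP_e12961_lc.Test

/-!
A sequence that computes a diagonally non-computable function with values `0`, `1` computes a member
of every nonempty effectively closed class of sequences.
-/

set_option autoImplicit false

namespace Pool.Agent.MP_e12961_lc

open Nat.Partrec (Code)
open Encodable Denumerable

/-- the first `i` entries -/
def pre (σ : List Bool) (i : ℕ) : List Bool := (List.range i).map fun j => σ.getD j false

theorem primrec_pre : Primrec₂ pre := by
  unfold pre
  exact Primrec.list_map (f := fun q : List Bool × ℕ => List.range q.2)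
    (g := fun q j => q.1.getD j false) (Primrec.list_range.comp Primrec.snd)
    ((Primrec.list_getD false).comp (Primrec.fst.comp Primrec.fst) Primrec.snd)

theorem pre_append (σ τ : List Bool) (i : ℕ) (h : i ≤ σ.length) : pre (σ ++ τ) i = pre σ i := by
  unfold pre
  apply List.map_congr_left
  intro j hj
  rw [List.mem_range] at hj
  exact getD_append_of_lt σ τ _ (by omega)

theorem pre_self (σ : List Bool) : pre σ σ.length = σ := by
  unfold pre
  apply List.ext_getElem
  · simp
  · intro j h1 h2
    simp [List.getD_eq_getElem?_getD, List.getElem?_eq_getElem h2]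

theorem pre_res (X : ℕ → Bool) (s i : ℕ) (h : i ≤ s) : pre (res X s) i = res X i := by
  unfold pre
  rw [res]
  apply List.map_congr_left
  intro j hj
  rw [List.mem_range] at hj
  have := res_getD X s j (by omega)
  rw [← this, res]

/-- some initial part of `σ` is enumerated before stage `k` -/
def Wd (c : Code) (k : ℕ) (σ : List Bool) : Prop :=
  ∃ i < σ.length + 1, (Code.evaln k c (encode (pre σ i))).isSome = true

theorem Wd.mono {c : Code} {k k' : ℕ} (hk : k ≤ k') {σ : List Bool} (h : Wd c k σ)
    (τ : List Bool) : Wd c k' (σ ++ τ) := by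
  obtain ⟨i, hi, h1⟩ := h
  obtain ⟨y, hy⟩ := Option.isSome_iff_exists.1 h1
  refine ⟨i, by rw [List.length_append]; omega, ?_⟩
  rw [pre_append σ τ i (by omega)]
  exact Option.isSome_iff_exists.2 ⟨y, Code.evaln_mono hk hy⟩

/-- all the strings `s` bits longer than `σ` have an initial part enumerated before stage `s` -/
def dead (c : Code) (s : ℕ) (σ : List Bool) : Prop := ∀ τ ∈ strs s, Wd c s (σ ++ τ)

theorem primrec_dead (c : Code) : PrimrecPred fun q : ℕ × List Bool => dead c q.1 q.2 := by
  unfold dead
  refine pp_forall_mem (β := ℕ × List Bool) (L := fun q => strs q.1)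
    (R := fun q τ => Wd c q.1 (q.2 ++ τ)) (primrec_strs.comp Primrec.fst) ?_
  unfold Wd
  refine pp_exists_lt (β := (ℕ × List Bool) × List Bool)
    (f := fun r => (r.1.2 ++ r.2).length + 1)
    (R := fun r i => (Code.evaln r.1.1 c (encode (pre (r.1.2 ++ r.2) i))).isSome = true) ?_ ?_
  · exact Primrec.succ.comp (Primrec.list_length.comp (Primrec.list_append.comp
      (Primrec.snd.comp Primrec.fst) Primrec.snd))
  · have h1 : Primrec fun q : ((ℕ × List Bool) × List Bool) × ℕ =>
        (Code.evaln q.1.1.1 c (encode (pre (q.1.1.2 ++ q.1.2) q.2))).isSome := by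
      refine Primrec.option_isSome.comp (Code.primrec_evaln.comp (Primrec.pair (Primrec.pair
        (Primrec.fst.comp (Primrec.fst.comp Primrec.fst)) (Primrec.const c)) ?_))
      refine Primrec.encode.comp (primrec_pre.comp (Primrec.list_append.comp
        (Primrec.snd.comp (Primrec.fst.comp Primrec.fst)) (Primrec.snd.comp Primrec.fst))
        Primrec.snd)
    exact Primrec.eq.comp h1 (Primrec.const true)

theorem dead.mono {c : Code} {s s' : ℕ} (hs : s ≤ s') {σ : List Bool} (h : dead c s σ) :
    dead c s' σ := by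
  intro τ hτ
  rw [mem_strs] at hτ
  have h1 := h (τ.take s) ((mem_strs s _).2 (by rw [List.length_take]; omega))
  have h2 := h1.mono hs (τ.drop s)
  rwa [List.append_assoc, List.take_append_drop] at h2

theorem dead_of_both {c : Code} {s0 s1 : ℕ} {σ : List Bool} (h0 : dead c s0 (σ ++ [false]))
    (h1 : dead c s1 (σ ++ [true])) : dead c (max s0 s1 + 1) σ := by
  intro τ hτ
  rw [mem_strs] at hτ
  cases τ with
  | nil => simp at hτ
  | cons b τ =>
    have hl : τ.length = max s0 s1 := by simpa using hτ
    have h2 : Wd c (max s0 s1) ((σ ++ [b]) ++ τ) := by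
      cases b with
      | false => exact h0.mono (le_max_left s0 s1) τ ((mem_strs _ _).2 hl)
      | true => exact h1.mono (le_max_right s0 s1) τ ((mem_strs _ _).2 hl)
    have h3 := h2.mono (Nat.le_succ _) []
    simpa using h3

theorem exists_code_re (W : List Bool → Prop) (hW : REPred W) :
    ∃ c : Code, ∀ σ, W σ ↔ ∃ k, (Code.evaln k c (encode σ)).isSome = true := by
  obtain ⟨c, hc⟩ := Code.exists_code.1 hW
  refine ⟨c, fun σ => ?_⟩
  have h1 : W σ ↔ (Code.eval c (encode σ)).Dom := by
    rw [hc]
    simp [Part.assert]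
  rw [h1, Part.dom_iff_mem]
  constructor
  · rintro ⟨y, hy⟩
    obtain ⟨k, hk⟩ := Code.evaln_complete.1 hy
    exact ⟨k, Option.isSome_iff_exists.2 ⟨y, hk⟩⟩
  · rintro ⟨k, hk⟩
    obtain ⟨y, hy⟩ := Option.isSome_iff_exists.1 hk
    exact ⟨y, Code.evaln_sound hy⟩

/-- the side that dies first, as a computable search -/
theorem exists_side (c : Code) : ∃ c' : Code, ∀ (σ : List Bool),
    (∀ m, (∃ s, dead c s (σ ++ [false]) ∨ dead c s (σ ++ [true])) →
      ∃ s, (dead c s (σ ++ [false]) ∨ dead c s (σ ++ [true])) ∧
        ((dead c s (σ ++ [false]) ∧ 0 ∈ Code.eval c' (Nat.pair (encode σ) m)) ∨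
          (¬ dead c s (σ ++ [false]) ∧ 1 ∈ Code.eval c' (Nat.pair (encode σ) m)))) := by
  classical
  have hcat : ∀ b : Bool, Primrec fun q : ℕ × ℕ =>
      (q.2, ((decode (α := List Bool) q.1.unpair.1).getD []) ++ [b]) := fun b =>
    Primrec.snd.pair (Primrec.list_append.comp (Primrec.option_getD.comp (Primrec.decode.comp
      (Primrec.fst.comp (Primrec.unpair.comp Primrec.fst))) (Primrec.const []))
      (Primrec.const [b]))
  have hD : ∀ b : Bool, PrimrecPred fun q : ℕ × ℕ =>
      dead c q.2 (((decode (α := List Bool) q.1.unpair.1).getD []) ++ [b]) := fun b =>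
    (primrec_dead c).comp (hcat b)
  have hp : Primrec₂ fun (n s : ℕ) =>
      decide (dead c s (((decode (α := List Bool) n.unpair.1).getD []) ++ [false]) ∨
        dead c s (((decode (α := List Bool) n.unpair.1).getD []) ++ [true])) :=
    ((hD false).or (hD true)).decide
  have hq : Primrec₂ fun (n s : ℕ) =>
      if dead c s (((decode (α := List Bool) n.unpair.1).getD []) ++ [false]) then 0 else 1 :=
    Primrec.ite (hD false) (Primrec.const 0) (Primrec.const 1)
  have h1 : Partrec fun n : ℕ => (Nat.rfind fun s => Part.some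
      (decide (dead c s (((decode (α := List Bool) n.unpair.1).getD []) ++ [false]) ∨
        dead c s (((decode (α := List Bool) n.unpair.1).getD []) ++ [true])))) :=
    Partrec.rfind hp.to_comp.partrec₂
  have h2 := h1.map hq.to_comp
  obtain ⟨c', hc'⟩ := Code.exists_code.1 (Partrec.nat_iff.1 h2)
  refine ⟨c', fun σ m hex => ?_⟩
  obtain ⟨s0, hs0⟩ := hex
  have hdec : (decode (α := List Bool) (Nat.pair (encode σ) m).unpair.1).getD [] = σ := by
    rw [Nat.unpair_pair, encodek]
    rfl
  obtain ⟨s, hs, -⟩ := Nat.rfind_min' (p := fun s =>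
    decide (dead c s (σ ++ [false]) ∨ dead c s (σ ++ [true]))) (m := s0) (by simpa using hs0)
  have h3 := Nat.rfind_spec hs
  have h4 : dead c s (σ ++ [false]) ∨ dead c s (σ ++ [true]) := by
    simpa using h3
  refine ⟨s, h4, ?_⟩
  have h5 : Code.eval c' (Nat.pair (encode σ) m) = (Nat.rfind fun s => Part.some
      (decide (dead c s (σ ++ [false]) ∨ dead c s (σ ++ [true])))).map
      (fun s => if dead c s (σ ++ [false]) then 0 else 1) := by
    rw [hc']
    simp only [hdec]
  rw [h5]
  by_cases h6 : dead c s (σ ++ [false])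
  · refine Or.inl ⟨h6, ?_⟩
    rw [Part.mem_map_iff]
    exact ⟨s, hs, by rw [if_pos h6]⟩
  · refine Or.inr ⟨h6, ?_⟩
    rw [Part.mem_map_iff]
    exact ⟨s, hs, by rw [if_neg h6]⟩

/-- the strings chosen along the way -/
def way (d : ℕ → ℕ) : ℕ → List Bool
  | 0 => []
  | n + 1 => way d n ++ [decide (d (encode (way d n)) = 1)]

theorem TR_way {Y : ℕ → Bool} {d : ℕ → ℕ} (hd : TR Y d) : TR Y (fun n => encode (way d n)) := by
  have hH : Primrec fun q : ℕ =>
      encode (((decode (α := List Bool) q.unpair.1).getD []) ++ [decide (q.unpair.2 = 1)]) := by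
    refine Primrec.encode.comp (Primrec.list_append.comp ?_ ?_)
    · refine Primrec.option_getD.comp ?_ (Primrec.const [])
      exact Primrec.decode.comp (Primrec.fst.comp Primrec.unpair)
    · refine Primrec.list_cons.comp ?_ (Primrec.const [])
      exact Primrec.eq.decide.comp (Primrec.snd.comp Primrec.unpair) (Primrec.const 1)
  have hlast : Primrec fun p : ℕ => p.unpair.2.unpair.2 :=
    Primrec.snd.comp (Primrec.unpair.comp (Primrec.snd.comp Primrec.unpair))
  have h1 : TR Y fun p => Nat.pair p.unpair.2.unpair.2 (d p.unpair.2.unpair.2) :=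
    (TR.prim hlast).pair (hd.comp (TR.prim hlast))
  have h2 := (TR.prim (Y := Y) hH).comp h1
  have h3 := TR.prec (TR.prim (Y := Y) (Primrec.const (encode ([] : List Bool)))) h2
  have h4 : TR Y fun n => Nat.pair 0 n := (TR.prim (Primrec.const 0)).pair (TR.prim Primrec.id)
  have h5 := h3.comp h4
  refine Nat.RecursiveIn.of_eq h5 fun n => ?_
  congr 1
  simp only [Nat.unpair_pair]
  induction n with
  | zero => rfl
  | succ n ih =>
    dsimp only at ih ⊢
    rw [ih, way]
    simp

/-- **A sequence that computes a diagonally non-computable function with values `0`, `1` computes a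
member of every nonempty effectively closed class.** -/
theorem scott (Y : ℕ → Bool) (f : ℕ → ℕ) (hf : TR Y f) (hle : ∀ n, f n ≤ 1)
    (hd : ∀ c : Code, ∀ y : ℕ, y ∈ c.eval (encode c) → f (encode c) ≠ y)
    (W : List Bool → Prop) (hW : REPred W) (hX : ∃ X : ℕ → Bool, ∀ n, ¬ W (res X n)) :
    ∃ P : ℕ → Bool, TR Y (fun n => (P n).toNat) ∧ ∀ n, ¬ W (res P n) := by
  obtain ⟨c, hc⟩ := exists_code_re W hW
  obtain ⟨c', hc'⟩ := exists_side c
  let d : ℕ → ℕ := fun n => f (encode (Code.curry c' n))
  have hdle : ∀ n, d n ≤ 1 := fun n => hle _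
  have hTd : TR Y d := by
    have h1 : Primrec fun n : ℕ => encode (Code.curry c' n) :=
      Primrec.encode.comp (Code.primrec₂_curry.comp (Primrec.const c') Primrec.id)
    exact hf.comp (TR.prim h1)
  have hne : ∀ (σ : List Bool) (v : ℕ),
      (∀ m, v ∈ Code.eval c' (Nat.pair (encode σ) m)) → d (encode σ) ≠ v := by
    intro σ v hv
    refine hd _ v ?_
    rw [Code.eval_curry]
    exact hv _
  -- extendible strings
  let Ext : List Bool → Prop := fun σ => ∀ s, ¬ dead c s σ
  have hnil : Ext [] := by
    obtain ⟨X, hX⟩ := hX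
    intro s hs
    obtain ⟨i, hi, h1⟩ := hs (res X s) (res_mem_strs X s)
    rw [List.nil_append] at hi h1
    rw [res_length] at hi
    rw [pre_res X s i (by omega)] at h1
    exact hX i ((hc _).2 ⟨s, h1⟩)
  have hout : ∀ σ, Ext σ → ¬ W σ := by
    intro σ hσ hWσ
    obtain ⟨k, hk⟩ := (hc σ).1 hWσ
    refine hσ k fun τ _ => ⟨σ.length, ?_, ?_⟩
    · rw [List.length_append]; omega
    · rw [pre_append σ τ _ le_rfl, pre_self]
      exact hk
  have hstep : ∀ σ, Ext σ → Ext (σ ++ [decide (d (encode σ) = 1)]) := by
    intro σ hσ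
    by_contra hcon
    have hcon' : ∃ s, dead c s (σ ++ [decide (d (encode σ) = 1)]) := by
      by_contra h
      push Not at h
      exact hcon h
    obtain ⟨s, hs⟩ := hcon'
    by_cases hv : d (encode σ) = 1
    · have h1 : decide (d (encode σ) = 1) = true := decide_eq_true hv
      rw [h1] at hs
      refine hne σ 1 (fun m => ?_) hv
      obtain ⟨s', -, h2⟩ := hc' σ m ⟨s, Or.inr hs⟩
      rcases h2 with ⟨h3, -⟩ | ⟨-, h3⟩
      · exact absurd (dead_of_both h3 hs) (hσ _)
      · exact h3
    · have h1 : decide (d (encode σ) = 1) = false := decide_eq_false hv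
      rw [h1] at hs
      have h0 : d (encode σ) = 0 := by
        have := hdle (encode σ)
        omega
      refine hne σ 0 (fun m => ?_) h0
      obtain ⟨s', h4, h2⟩ := hc' σ m ⟨s, Or.inl hs⟩
      rcases h2 with ⟨-, h3⟩ | ⟨h5, -⟩
      · exact h3
      · rcases h4 with h4 | h4
        · exact absurd h4 h5
        · exact absurd (dead_of_both hs h4) (hσ _)
  have hway : ∀ n, Ext (way d n) := by
    intro n
    induction n with
    | zero => exact hnil
    | succ n ih => exact hstep _ ih
  let P : ℕ → Bool := fun n => decide (d (encode (way d n)) = 1)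
  have hres : ∀ n, res P n = way d n := by
    intro n
    induction n with
    | zero => simp [way]
    | succ n ih => rw [res_succ, ih, way]
  refine ⟨P, ?_, fun n => ?_⟩
  · refine Nat.RecursiveIn.of_eq (hTd.comp (TR_way hTd)) fun n => ?_
    congr 1
    have h1 := hdle (encode (way d n))
    show d (encode (way d n)) = (decide (d (encode (way d n)) = 1)).toNat
    by_cases h2 : d (encode (way d n)) = 1
    · rw [decide_eq_true h2, h2]; rfl
    · rw [decide_eq_false h2]
      show _ = 0
      omega
  · rw [hres]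
    exact hout _ (hway n)

end Pool.Agent.MP_e12961_lc
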