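import Pool.Agent.Lib.MP_e12961_lc.Univ
import Pool.Agent.Lib.MP_e12961_lc.Count

/-!
The oracle test and the primitive recursive tree avoiding it.
-/

set_option autoImplicit false

namespace Pool.Agent.MP_e12961_lc

open Nat.Partrec (Code)
open Encodable Denumerable

section closure

variable {α β : Type*} [Primcodable α] [Primcodable β]

theorem pp_exists_mem {L : β → List α} {R : β → α → Prop} (hL : Primrec L)
    (hR : PrimrecPred fun q : β × α => R q.1 q.2) : PrimrecPred fun b => ∃ a ∈ L b, R b a := by
  have h1 : PrimrecRel fun (a : α) (b : β) => R b a :=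
    hR.comp (Primrec.pair Primrec.snd Primrec.fst)
  exact h1.exists_mem_list.comp hL Primrec.id

theorem pp_forall_mem {L : β → List α} {R : β → α → Prop} (hL : Primrec L)
    (hR : PrimrecPred fun q : β × α => R q.1 q.2) : PrimrecPred fun b => ∀ a ∈ L b, R b a := by
  have h1 : PrimrecRel fun (a : α) (b : β) => R b a :=
    hR.comp (Primrec.pair Primrec.snd Primrec.fst)
  exact h1.forall_mem_list.comp hL Primrec.id

theorem pp_exists_lt {f : β → ℕ} {R : β → ℕ → Prop} (hf : Primrec f)
    (hR : PrimrecPred fun q : β × ℕ => R q.1 q.2) : PrimrecPred fun b => ∃ a < f b, R b a :=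
  (pp_exists_mem (Primrec.list_range.comp hf) hR).of_eq fun b => by simp

theorem pp_forall_lt {f : β → ℕ} {R : β → ℕ → Prop} (hf : Primrec f)
    (hR : PrimrecPred fun q : β × ℕ => R q.1 q.2) : PrimrecPred fun b => ∀ a < f b, R b a :=
  (pp_forall_mem (Primrec.list_range.comp hf) hR).of_eq fun b => by simp

open Classical in
theorem pr_count {L : β → List α} {R : β → α → Prop} (hL : Primrec L)
    (hR : PrimrecPred fun q : β × α => R q.1 q.2) :
    Primrec fun b => ((L b).filter fun a => decide (R b a)).length := by
  have h1 : PrimrecRel fun (a : α) (b : β) => R b a :=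
    hR.comp (Primrec.pair Primrec.snd Primrec.fst)
  have h2 := Primrec.list_length.comp (h1.listFilter.comp hL Primrec.id)
  exact h2

end closure

theorem primrec_strs : Primrec strs := by
  have h : Primrec₂ fun (_ : ℕ) (L : List (List Bool)) =>
      L.flatMap fun l => [l ++ [false], l ++ [true]] := by
    refine Primrec.list_flatMap (f := fun q : ℕ × List (List Bool) => q.2)
      (g := fun _ l => [l ++ [false], l ++ [true]]) Primrec.snd ?_
    refine Primrec.list_cons.comp (Primrec.list_concat.comp Primrec.snd (Primrec.const false)) ?_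
    exact Primrec.list_cons.comp (Primrec.list_concat.comp Primrec.snd (Primrec.const true))
      (Primrec.const [])
  refine (Primrec.nat_rec₁ [[]] h).of_eq ?_
  intro n
  induction n with
  | zero => rfl
  | succ n ih =>
    change (List.flatMap _ _) = _
    rw [strs, ← ih]

/-- The bit predicted by the `e`-th functional. -/
def pb (e : ℕ) (ζ : List Bool) (i : ℕ) : Option Bool :=
  (Phi e ζ i).map fun y => decide (y ≠ 0)

theorem pb_mono (e : ℕ) (ζ τ : List Bool) (i : ℕ) (b : Bool) (h : pb e ζ i = some b) :
    pb e (ζ ++ τ) i = some b := by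
  unfold pb at h ⊢
  rw [Option.map_eq_some_iff] at h ⊢
  obtain ⟨y, hy, hb⟩ := h
  exact ⟨y, Phi_mono e _ _ _ _ hy, hb⟩

theorem primrec_pb : Primrec fun q : ℕ × List Bool × ℕ => pb q.1 q.2.1 q.2.2 := by
  unfold pb
  refine Primrec.option_map primrec_Phi ?_
  exact (PrimrecPred.not (Primrec.eq.comp Primrec.snd (Primrec.const 0))).decide

/-- Starting length of the `e`-th test. -/
def nE (e : ℕ) : ℕ := 50 * (e + 1)

/-- The string `ω` is caught by the test with oracle string `ζ`. -/
def Hit (ω ζ : List Bool) : Prop :=
  ∃ e < ω.length, ∃ m < ω.length + 1, nE e ≤ m ∧ 3 * m < 4 * dis m (pb e ζ) ω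

theorem dis_mono (m : ℕ) (e : ℕ) (ω ω' ζ ζ' : List Bool) (hm : m ≤ ω.length) :
    dis m (pb e ζ) ω ≤ dis m (pb e (ζ ++ ζ')) (ω ++ ω') := by
  unfold dis
  apply Finset.card_le_card
  intro i hi
  rw [Finset.mem_filter, Finset.mem_range] at hi ⊢
  refine ⟨hi.1, ?_⟩
  have h1 : (ω ++ ω').getD i false = ω.getD i false := by
    rw [List.getD_eq_getElem?_getD, List.getD_eq_getElem?_getD,
      List.getElem?_append_left (by omega)]
  rw [h1]
  exact pb_mono e ζ ζ' i _ hi.2

theorem Hit.mono {ω ζ : List Bool} (h : Hit ω ζ) (ω' ζ' : List Bool) :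
    Hit (ω ++ ω') (ζ ++ ζ') := by
  obtain ⟨e, he, m, hm, hn, hd⟩ := h
  refine ⟨e, ?_, m, ?_, hn, ?_⟩
  · rw [List.length_append]; omega
  · rw [List.length_append]; omega
  · have := dis_mono m e ω ω' ζ ζ' (by omega)
    omega

open Classical in
theorem dis_eq_length (m : ℕ) (b : ℕ → Option Bool) (ω : List Bool) :
    dis m b ω =
      ((List.range m).filter fun i => decide (b i = some (!(ω.getD i false)))).length := by
  unfold dis
  rw [← List.toFinset_card_of_nodup (List.Nodup.filter _ List.nodup_range)]
  congr 1
  ext i
  simp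

theorem primrec_Hit : PrimrecPred fun q : List Bool × List Bool => Hit q.1 q.2 := by
  unfold Hit
  have hlen : Primrec fun q : List Bool × List Bool => q.1.length :=
    Primrec.list_length.comp Primrec.fst
  refine pp_exists_lt hlen ?_
  refine pp_exists_lt (β := (List Bool × List Bool) × ℕ)
    (f := fun q => q.1.1.length + 1)
    (R := fun q m => nE q.2 ≤ m ∧ 3 * m < 4 * dis m (pb q.2 q.1.2) q.1.1)
    (Primrec.succ.comp (Primrec.list_length.comp (Primrec.fst.comp Primrec.fst))) ?_
  have hm : Primrec fun q : ((List Bool × List Bool) × ℕ) × ℕ => q.2 := Primrec.snd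
  have he : Primrec fun q : ((List Bool × List Bool) × ℕ) × ℕ => q.1.2 :=
    Primrec.snd.comp Primrec.fst
  have hω : Primrec fun q : ((List Bool × List Bool) × ℕ) × ℕ => q.1.1.1 :=
    Primrec.fst.comp (Primrec.fst.comp Primrec.fst)
  have hζ : Primrec fun q : ((List Bool × List Bool) × ℕ) × ℕ => q.1.1.2 :=
    Primrec.snd.comp (Primrec.fst.comp Primrec.fst)
  refine PrimrecPred.and ?_ ?_
  · unfold nE
    exact Primrec.nat_le.comp
      (Primrec.nat_mul.comp (Primrec.const 50) (Primrec.succ.comp he)) hm
  · refine Primrec.nat_lt.comp (Primrec.nat_mul.comp (Primrec.const 3) hm)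
      (Primrec.nat_mul.comp (Primrec.const 4) ?_)
    have h1 := pr_count (β := ((List Bool × List Bool) × ℕ) × ℕ) (α := ℕ)
      (L := fun q => List.range q.2)
      (R := fun q i => pb q.1.2 q.1.1.2 i = some (!(q.1.1.1.getD i false)))
      (Primrec.list_range.comp hm) (by
        refine Primrec.eq.comp ?_ ?_
        · exact primrec_pb.comp (Primrec.pair (he.comp Primrec.fst)
            (Primrec.pair (hζ.comp Primrec.fst) Primrec.snd))
        · refine Primrec.option_some.comp (Primrec.not.comp ?_)
          exact (Primrec.list_getD false).comp (hω.comp Primrec.fst) Primrec.snd)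
    refine h1.of_eq ?_
    intro q
    rw [dis_eq_length]
    apply congrArg List.length
    apply List.filter_congr
    intro i _
    exact decide_eq_decide.2 Iff.rfl

/-- The part of `τ` on the multiples of eight violates diagonal non-recursiveness. -/
def DNCbad (τ : List Bool) : Prop :=
  ∃ k < τ.length, 8 * k < τ.length ∧
    Code.evaln τ.length (ofNat Code k) k = some (τ.getD (8 * k) false).toNat

theorem primrec_DNCbad : PrimrecPred DNCbad := by
  unfold DNCbad
  refine pp_exists_lt (β := List Bool) (f := fun τ => τ.length)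
    (R := fun τ k => 8 * k < τ.length ∧
      Code.evaln τ.length (ofNat Code k) k = some (τ.getD (8 * k) false).toNat)
    Primrec.list_length ?_
  have hlen : Primrec fun q : List Bool × ℕ => q.1.length :=
    Primrec.list_length.comp Primrec.fst
  have h8 : Primrec fun q : List Bool × ℕ => 8 * q.2 :=
    Primrec.nat_mul.comp (Primrec.const 8) Primrec.snd
  refine PrimrecPred.and (Primrec.nat_lt.comp h8 hlen) ?_
  refine Primrec.eq.comp ?_ ?_
  · exact Code.primrec_evaln.comp
      ((hlen.pair ((Primrec.ofNat Code).comp Primrec.snd)).pair Primrec.snd)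
  · refine Primrec.option_some.comp ((Primrec.dom_bool Bool.toNat).comp ?_)
    exact (Primrec.list_getD false).comp Primrec.fst h8

theorem getD_append_of_lt (τ τ' : List Bool) (i : ℕ) (h : i < τ.length) :
    (τ ++ τ').getD i false = τ.getD i false := by
  rw [List.getD_eq_getElem?_getD, List.getD_eq_getElem?_getD,
    List.getElem?_append_left h]

theorem DNCbad.mono {τ : List Bool} (h : DNCbad τ) (τ' : List Bool) : DNCbad (τ ++ τ') := by
  obtain ⟨k, hk, h8, he⟩ := h
  refine ⟨k, by rw [List.length_append]; omega, by rw [List.length_append]; omega, ?_⟩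
  rw [getD_append_of_lt τ τ' _ h8]
  exact Code.evaln_mono (by rw [List.length_append]; omega) he

/-- Interleave: the multiples of eight come from `τ`, the other positions from `γ`. -/
def mix (τ γ : List Bool) : List Bool :=
  (List.range τ.length).map fun i => if i % 8 = 0 then τ.getD i false else γ.getD i false

theorem primrec_mix : Primrec₂ mix := by
  unfold mix
  refine Primrec.list_map (f := fun q : List Bool × List Bool => List.range q.1.length)
    (g := fun q i => if i % 8 = 0 then q.1.getD i false else q.2.getD i false)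
    (Primrec.list_range.comp (Primrec.list_length.comp Primrec.fst)) ?_
  refine Primrec.ite ?_ ?_ ?_
  · exact Primrec.eq.comp (Primrec.nat_mod.comp Primrec.snd (Primrec.const 8)) (Primrec.const 0)
  · exact (Primrec.list_getD false).comp (Primrec.fst.comp Primrec.fst) Primrec.snd
  · exact (Primrec.list_getD false).comp (Primrec.snd.comp Primrec.fst) Primrec.snd

theorem mix_length (τ γ : List Bool) : (mix τ γ).length = τ.length := by
  simp [mix]

theorem mix_append (τ γ τ' γ' : List Bool) (h : γ.length = τ.length) :
    ∃ ρ, mix (τ ++ τ') (γ ++ γ') = mix τ γ ++ ρ := by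
  refine ⟨(List.range τ'.length).map fun j =>
    if (τ.length + j) % 8 = 0 then (τ ++ τ').getD (τ.length + j) false
      else (γ ++ γ').getD (τ.length + j) false, ?_⟩
  unfold mix
  rw [List.length_append, List.range_add, List.map_append, List.map_map]
  congr 1
  apply List.map_congr_left
  intro i hi
  rw [List.mem_range] at hi
  rw [getD_append_of_lt τ τ' i hi, getD_append_of_lt γ γ' i (by omega)]

/-- The sequence with the multiples of eight from `Y` and the other positions from `G`. -/
def mixS (Y G : ℕ → Bool) : ℕ → Bool := fun i => if i % 8 = 0 then Y i else G i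

theorem mix_res (Y G : ℕ → Bool) (s : ℕ) : mix (res Y s) (res G s) = res (mixS Y G) s := by
  unfold mix
  rw [res_length]
  unfold res
  apply List.map_congr_left
  intro i hi
  rw [List.mem_range] at hi
  have h1 := res_getD Y s i hi
  have h2 := res_getD G s i hi
  unfold res at h1 h2
  rw [h1, h2]
  rfl

open Classical in
/-- The number of `γ` such that `σ` is caught by `mix τ γ`. -/
noncomputable def bad (σ τ : List Bool) : ℕ :=
  ((strs σ.length).filter fun γ => decide (Hit σ (mix τ γ))).length

theorem primrec_bad : Primrec₂ bad := by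
  unfold bad
  refine pr_count (β := List Bool × List Bool) (α := List Bool)
    (L := fun q => strs q.1.length) (R := fun q γ => Hit q.1 (mix q.2 γ))
    (primrec_strs.comp (Primrec.list_length.comp Primrec.fst)) ?_
  exact primrec_Hit.comp (Primrec.pair (Primrec.fst.comp Primrec.fst)
    (primrec_mix.comp (Primrec.snd.comp Primrec.fst) Primrec.snd))

/-- `σ` is removed from the tree. -/
def Rem (σ : List Bool) : Prop :=
  ∀ τ ∈ strs σ.length, DNCbad τ ∨ (strs σ.length).length < 2 * bad σ τ

theorem primrec_Rem : PrimrecPred Rem := by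
  unfold Rem
  have hs : Primrec fun σ : List Bool => strs σ.length := primrec_strs.comp Primrec.list_length
  refine pp_forall_mem (β := List Bool) (α := List Bool) (L := fun σ => strs σ.length)
    (R := fun σ τ => DNCbad τ ∨ (strs σ.length).length < 2 * bad σ τ) hs ?_
  refine PrimrecPred.or (primrec_DNCbad.comp Primrec.snd) ?_
  refine Primrec.nat_lt.comp (Primrec.list_length.comp (hs.comp Primrec.fst)) ?_
  exact Primrec.nat_mul.comp (Primrec.const 2) (primrec_bad.comp Primrec.fst Primrec.snd)

end Pool.Agent.MP_e12961_lc
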