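import Pool.Agent.Lib.MP_e12961_lc.Test

/-!
Counting the caught strings, nonemptiness of the tree, and a hyperimmune-free path.
-/

set_option autoImplicit false

namespace Pool.Agent.MP_e12961_lc

open Nat.Partrec (Code)
open Encodable Denumerable Finset

open Classical in
theorem hit_count (s : ℕ) (ζ : List Bool) :
    (((S s).filter fun ω => Hit ω ζ).card : ℝ) ≤ 2 ^ s / 8 := by
  have h1 : ((S s).filter fun ω => Hit ω ζ) ⊆
      (range s).biUnion fun e => (Finset.Ico (nE e) (s + 1)).biUnion fun m =>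
        (S s).filter fun ω => 3 * m < 4 * dis m (pb e ζ) ω := by
    intro ω hω
    rw [Finset.mem_filter] at hω
    obtain ⟨hS, e, he, m, hm, hn, hd⟩ := hω
    have hl := (mem_S s ω).1 hS
    rw [Finset.mem_biUnion]
    refine ⟨e, by rw [Finset.mem_range]; omega, ?_⟩
    rw [Finset.mem_biUnion]
    refine ⟨m, by rw [Finset.mem_Ico]; omega, ?_⟩
    rw [Finset.mem_filter]
    exact ⟨hS, hd⟩
  have h2 : (((S s).filter fun ω => Hit ω ζ).card : ℝ) ≤
      ∑ e ∈ range s, ∑ m ∈ Finset.Ico (nE e) (s + 1), (2 : ℝ) ^ s * (9 / 10 : ℝ) ^ m := by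
    have h3 := (Finset.card_le_card h1).trans Finset.card_biUnion_le
    have h4 : (((S s).filter fun ω => Hit ω ζ).card : ℝ) ≤
        ((∑ e ∈ range s, ((Finset.Ico (nE e) (s + 1)).biUnion fun m =>
        (S s).filter fun ω => 3 * m < 4 * dis m (pb e ζ) ω).card : ℕ) : ℝ) := by
      exact_mod_cast h3
    refine h4.trans ?_
    push_cast
    apply Finset.sum_le_sum
    intro e _
    have h5 : ((((Finset.Ico (nE e) (s + 1)).biUnion fun m =>
        (S s).filter fun ω => 3 * m < 4 * dis m (pb e ζ) ω).card : ℕ) : ℝ) ≤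
        ((∑ m ∈ Finset.Ico (nE e) (s + 1),
          ((S s).filter fun ω => 3 * m < 4 * dis m (pb e ζ) ω).card : ℕ) : ℝ) := by
      exact_mod_cast Finset.card_biUnion_le
    refine h5.trans ?_
    push_cast
    apply Finset.sum_le_sum
    intro m hm
    rw [Finset.mem_Ico] at hm
    exact cnt_dis s m (by omega) (pb e ζ)
  refine h2.trans ?_
  have h6 : ∀ e, ∑ m ∈ Finset.Ico (nE e) (s + 1), (2 : ℝ) ^ s * (9 / 10 : ℝ) ^ m ≤
      2 ^ s * (10 * (1 / 100 : ℝ) ^ (e + 1)) := by
    intro e
    rw [← Finset.mul_sum]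
    apply mul_le_mul_of_nonneg_left _ (by positivity)
    have h7 := geom_sum_Ico_le_of_lt_one (m := nE e) (n := s + 1) (x := (9 / 10 : ℝ))
      (by norm_num) (by norm_num)
    refine h7.trans ?_
    have h8 : (9 / 10 : ℝ) ^ nE e ≤ (1 / 100 : ℝ) ^ (e + 1) := by
      unfold nE
      rw [pow_mul]
      apply pow_le_pow_left₀ (by positivity)
      norm_num
    have h9 : (1 - 9 / 10 : ℝ) = 1 / 10 := by norm_num
    rw [h9, div_div_eq_mul_div, div_one, mul_comm]
    apply mul_le_mul_of_nonneg_left h8 (by norm_num)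
  refine (Finset.sum_le_sum fun e _ => h6 e).trans ?_
  rw [← Finset.mul_sum, ← Finset.mul_sum]
  have h10 : ∑ e ∈ range s, (1 / 100 : ℝ) ^ (e + 1) ≤ 1 / 99 := by
    have h11 := geom_sum_Ico_le_of_lt_one (m := 1) (n := s + 1) (x := (1 / 100 : ℝ))
      (by norm_num) (by norm_num)
    have h12 : ∑ e ∈ range s, (1 / 100 : ℝ) ^ (e + 1) =
        ∑ i ∈ Finset.Ico 1 (s + 1), (1 / 100 : ℝ) ^ i := by
      rw [Finset.sum_Ico_eq_sum_range]
      simp only [Nat.add_sub_cancel]
      apply Finset.sum_congr rfl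
      intro i _
      rw [add_comm]
    rw [h12]
    refine h11.trans ?_
    norm_num
  have h13 : (2 : ℝ) ^ s * (10 * ∑ e ∈ range s, (1 / 100 : ℝ) ^ (e + 1)) ≤
      2 ^ s * (10 * (1 / 99)) := by
    apply mul_le_mul_of_nonneg_left _ (by positivity)
    apply mul_le_mul_of_nonneg_left h10 (by norm_num)
  refine h13.trans ?_
  have h14 : (0 : ℝ) < 2 ^ s := by positivity
  linarith

/-- A sequence that is diagonally non-recursive on the multiples of eight. -/
theorem exists_dnc : ∃ Y : ℕ → Bool, ∀ s, ¬ DNCbad (res Y s) := by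
  classical
  let Y : ℕ → Bool := fun i => if 0 ∈ Code.eval (ofNat Code (i / 8)) (i / 8) then true else false
  refine ⟨Y, fun s hbad => ?_⟩
  obtain ⟨k, _, h8, he⟩ := hbad
  rw [res_length] at h8 he
  rw [res_getD Y s (8 * k) h8] at he
  have h1 := Code.evaln_sound he
  have h2 : Y (8 * k) = if 0 ∈ Code.eval (ofNat Code k) k then true else false := by
    simp only [Y]
    rw [Nat.mul_div_cancel_left k (by norm_num)]
  by_cases h0 : 0 ∈ Code.eval (ofNat Code k) k
  · rw [h2, if_pos h0] at h1
    have := Part.mem_unique h0 h1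
    simp at this
  · rw [h2, if_neg h0] at h1
    exact h0 h1

open Classical in
theorem bad_eq_card (σ τ : List Bool) :
    bad σ τ = ((S σ.length).filter fun γ => Hit σ (mix τ γ)).card := by
  unfold bad
  rw [← List.toFinset_card_of_nodup (List.Nodup.filter _ (strs_nodup _))]
  congr 1
  ext i
  simp [S]

theorem exists_notRem (s : ℕ) : ∃ σ : List Bool, σ.length = s ∧ ¬ Rem σ := by
  classical
  obtain ⟨Y, hY⟩ := exists_dnc
  by_contra hcon
  push Not at hcon
  set τ := res Y s with hτ
  have h1 : ∀ σ ∈ S s, (2 : ℝ) ^ s / 2 ≤ ((S s).filter fun γ => Hit σ (mix τ γ)).card := by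
    intro σ hσ
    have hl := (mem_S s σ).1 hσ
    have hr := hcon σ hl τ (by rw [hl]; exact res_mem_strs Y s)
    rcases hr with h | h
    · exact absurd h (hY s)
    · rw [bad_eq_card, hl, strs_length] at h
      have h2 : ((2 ^ s : ℕ) : ℝ) ≤ ((2 * ((S s).filter fun γ => Hit σ (mix τ γ)).card : ℕ) : ℝ) := by
        exact_mod_cast h.le
      push_cast at h2
      linarith
  have h3 : ∑ σ ∈ S s, (2 : ℝ) ^ s / 2 ≤
      ∑ σ ∈ S s, (((S s).filter fun γ => Hit σ (mix τ γ)).card : ℝ) :=
    Finset.sum_le_sum h1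
  have h4 : ∑ σ ∈ S s, (((S s).filter fun γ => Hit σ (mix τ γ)).card : ℝ) =
      ∑ γ ∈ S s, (((S s).filter fun σ => Hit σ (mix τ γ)).card : ℝ) := by
    simp only [Finset.card_eq_sum_ones, Finset.sum_filter]
    push_cast
    exact Finset.sum_comm
  have h5 : ∑ γ ∈ S s, (((S s).filter fun σ => Hit σ (mix τ γ)).card : ℝ) ≤
      ∑ γ ∈ S s, (2 : ℝ) ^ s / 8 :=
    Finset.sum_le_sum fun γ _ => hit_count s (mix τ γ)
  rw [h4] at h3
  have h6 := h3.trans h5
  rw [Finset.sum_const, Finset.sum_const, card_S, nsmul_eq_mul, nsmul_eq_mul] at h6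
  push_cast at h6
  have h7 : (0 : ℝ) < 2 ^ s := by positivity
  have h8 : (2 : ℝ) ^ s * (2 ^ s / 2) ≤ 2 ^ s * (2 ^ s / 8) := h6
  have h9 := le_of_mul_le_mul_left h8 h7
  linarith

theorem Rem.mono {σ : List Bool} (h : Rem σ) (b : Bool) : Rem (σ ++ [b]) := by
  classical
  intro τ' hτ'
  rw [mem_strs, List.length_append, List.length_singleton] at hτ'
  have hne : τ' ≠ [] := by
    rintro rfl
    simp at hτ'
  obtain ⟨τ, c, rfl⟩ : ∃ τ c, τ' = τ ++ [c] :=
    ⟨τ'.dropLast, τ'.getLast hne, (List.dropLast_append_getLast hne).symm⟩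
  have hl : τ.length = σ.length := by simpa using hτ'
  rcases h τ (by rw [mem_strs]; exact hl) with h1 | h1
  · left
    exact h1.mono _
  · right
    rw [bad_eq_card, List.length_append, List.length_singleton, strs_length]
    rw [bad_eq_card, strs_length] at h1
    have h2 : ∀ d : Bool, ((S σ.length).filter fun γ => Hit σ (mix τ γ)).image (· ++ [d]) ⊆
        (S (σ.length + 1)).filter fun γ => Hit (σ ++ [b]) (mix (τ ++ [c]) γ) := by
      intro d γ' hγ'
      rw [Finset.mem_image] at hγ'
      obtain ⟨γ, hγ, rfl⟩ := hγ'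
      rw [Finset.mem_filter] at hγ ⊢
      have hlγ := (mem_S _ γ).1 hγ.1
      refine ⟨by rw [mem_S]; simp [hlγ], ?_⟩
      obtain ⟨ρ, hρ⟩ := mix_append τ γ [c] [d] (by omega)
      rw [hρ]
      exact hγ.2.mono _ _
    have h3 : Disjoint (((S σ.length).filter fun γ => Hit σ (mix τ γ)).image (· ++ [false]))
        (((S σ.length).filter fun γ => Hit σ (mix τ γ)).image (· ++ [true])) := by
      rw [Finset.disjoint_left]
      intro γ hγ hγ'
      rw [Finset.mem_image] at hγ hγ'
      obtain ⟨γ1, _, rfl⟩ := hγ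
      obtain ⟨γ2, _, h4⟩ := hγ'
      have := (List.append_inj' h4 rfl).2
      simp at this
    have h5 : ∀ d : Bool, (((S σ.length).filter fun γ => Hit σ (mix τ γ)).image (· ++ [d])).card
        = ((S σ.length).filter fun γ => Hit σ (mix τ γ)).card := by
      intro d
      apply Finset.card_image_of_injective
      intro x y hxy
      exact List.append_cancel_right hxy
    have h6 := Finset.card_le_card (Finset.union_subset (h2 false) (h2 true))
    rw [Finset.card_union_of_disjoint h3, h5, h5] at h6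
    rw [pow_succ]
    omega

/-- The tree determined by a finite list of divergence requirements. -/
def Keep (L : List (ℕ × ℕ)) (σ : List Bool) : Prop :=
  ¬ Rem σ ∧ ∀ p ∈ L, Phi p.1 σ p.2 = none

theorem primrec_Keep (L : List (ℕ × ℕ)) : PrimrecPred (Keep L) := by
  unfold Keep
  refine PrimrecPred.and primrec_Rem.not ?_
  refine pp_forall_mem (β := List Bool) (α := ℕ × ℕ) (L := fun _ => L)
    (R := fun σ p => Phi p.1 σ p.2 = none) (Primrec.const L) ?_
  refine Primrec.eq.comp ?_ (Primrec.const none)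
  exact primrec_Phi.comp (Primrec.pair (Primrec.fst.comp Primrec.snd)
    (Primrec.pair Primrec.fst (Primrec.snd.comp Primrec.snd)))

theorem Phi_none_of_append (e : ℕ) (σ τ : List Bool) (n : ℕ) (h : Phi e (σ ++ τ) n = none) :
    Phi e σ n = none := by
  rcases h1 : Phi e σ n with _ | y
  · rfl
  · rw [Phi_mono e σ τ n y h1] at h
    exact absurd h (by simp)

theorem Keep_pre (L : List (ℕ × ℕ)) (σ : List Bool) (b : Bool) (h : Keep L (σ ++ [b])) :
    Keep L σ :=
  ⟨fun hr => h.1 (hr.mono b), fun p hp => Phi_none_of_append _ _ _ _ (h.2 p hp)⟩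

/-- The tree is infinite. -/
def Inf (L : List (ℕ × ℕ)) : Prop := ∀ s, ∃ σ : List Bool, σ.length = s ∧ Keep L σ

theorem inf_nil : Inf [] := by
  intro s
  obtain ⟨σ, h1, h2⟩ := exists_notRem s
  exact ⟨σ, h1, h2, by simp⟩

open Classical in
/-- The sequence of lists of requirements. -/
noncomputable def Ls : ℕ → List (ℕ × ℕ)
  | 0 => []
  | e + 1 => if h : ∃ n, Inf ((e, n) :: Ls e) then (e, h.choose) :: Ls e else Ls e

theorem Ls_inf (e : ℕ) : Inf (Ls e) := by
  induction e with
  | zero => exact inf_nil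
  | succ e ih =>
    rw [Ls]
    split_ifs with h
    · exact h.choose_spec
    · exact ih

theorem Ls_subset_succ (e : ℕ) : Ls e ⊆ Ls (e + 1) := by
  rw [Ls]
  split_ifs with h
  · exact List.subset_cons_self _ _
  · exact List.Subset.refl _

theorem Ls_subset {e e' : ℕ} (h : e ≤ e') : Ls e ⊆ Ls e' := by
  induction h with
  | refl => exact List.Subset.refl _
  | step _ ih => exact List.Subset.trans ih (Ls_subset_succ _)

theorem Keep.anti {L L' : List (ℕ × ℕ)} (h : L ⊆ L') {σ : List Bool} (hk : Keep L' σ) :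
    Keep L σ := ⟨hk.1, fun p hp => hk.2 p (h hp)⟩

theorem exists_path : ∃ X : ℕ → Bool, ∀ e s, Keep (Ls e) (res X s) := by
  have hpre' : ∀ (L : List (ℕ × ℕ)) (τ σ : List Bool), Keep L (σ ++ τ) → Keep L σ := by
    intro L τ
    induction τ using List.reverseRecOn with
    | nil => intro σ h; simpa using h
    | append_singleton τ b ih =>
      intro σ h
      apply ih
      apply Keep_pre L (σ ++ τ) b
      simpa using h
  obtain ⟨X, hX⟩ := koenig (fun σ => Keep (Ls σ.length) σ) (by
    intro σ b h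
    rw [List.length_append, List.length_singleton] at h
    exact Keep_pre _ _ _ (h.anti (Ls_subset_succ _))) (by
    intro s
    obtain ⟨σ, h1, h2⟩ := Ls_inf s s
    exact ⟨σ, h1, by rw [h1]; exact h2⟩)
  refine ⟨X, fun e s => ?_⟩
  have h1 := hX (max e s)
  rw [res_length] at h1
  have h2 := h1.anti (Ls_subset (le_max_left e s))
  obtain ⟨τ, hτ⟩ := res_append X s (max e s) (le_max_right e s)
  rw [hτ] at h2
  exact hpre' _ _ _ h2

theorem hif (X : ℕ → Bool) (hX : ∀ e s, Keep (Ls e) (res X s)) (f : ℕ → ℕ) (hf : TR X f) :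
    ∃ g : ℕ → ℕ, Computable g ∧ ∀ n, f n ≤ g n := by
  classical
  obtain ⟨e, he⟩ := Phi_exists X f hf
  -- the tree at stage `e + 1` did not change
  have hno : ¬ ∃ n, Inf ((e, n) :: Ls e) := by
    intro h
    have h1 : Ls (e + 1) = (e, h.choose) :: Ls e := by
      rw [Ls, dif_pos h]
    obtain ⟨s, hs⟩ := he h.choose
    have h2 := (hX (e + 1) s).2 (e, h.choose) (by rw [h1]; simp)
    simp only at h2
    rw [hs] at h2
    exact absurd h2 (by simp)
  push Not at hno
  -- the search for the level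
  let Q : ℕ → ℕ → Prop := fun n s => ∀ σ ∈ strs s, ¬ (Keep (Ls e) σ ∧ Phi e σ n = none)
  have hQ : PrimrecPred fun q : ℕ × ℕ => Q q.1 q.2 := by
    refine pp_forall_mem (β := ℕ × ℕ) (α := List Bool) (L := fun q => strs q.2)
      (R := fun q σ => ¬ (Keep (Ls e) σ ∧ Phi e σ q.1 = none))
      (primrec_strs.comp Primrec.snd) ?_
    refine PrimrecPred.not (PrimrecPred.and ((primrec_Keep (Ls e)).comp Primrec.snd) ?_)
    refine Primrec.eq.comp ?_ (Primrec.const none)
    exact primrec_Phi.comp (Primrec.pair (Primrec.const e)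
      (Primrec.pair Primrec.snd (Primrec.fst.comp Primrec.fst)))
  have hQex : ∀ n, ∃ s, Q n s := by
    intro n
    have h1 := hno n
    unfold Inf at h1
    push Not at h1
    obtain ⟨s, hs⟩ := h1
    refine ⟨s, fun σ hσ hk => ?_⟩
    rw [mem_strs] at hσ
    apply hs σ hσ
    refine ⟨hk.1.1, ?_⟩
    intro p hp
    rw [List.mem_cons] at hp
    rcases hp with rfl | hp
    · exact hk.2
    · exact hk.1.2 p hp
  have hfind : Computable fun n => Nat.find (hQex n) := by
    have h1 : Partrec fun n => Nat.rfind fun s => Part.some (decide (Q n s)) := by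
      refine Partrec.rfind (p := fun (n s : ℕ) => Part.some (decide (Q n s))) ?_
      exact (Primrec.to_comp hQ.decide).partrec
    refine Partrec.of_eq_tot h1 ?_
    intro n
    refine Nat.mem_rfind.2 ⟨?_, ?_⟩
    · simpa using Nat.find_spec (hQex n)
    · intro m hm
      simpa using Nat.find_min (hQex n) hm
  -- the bound
  let B : ℕ → ℕ → ℕ := fun n s => ((strs s).map fun σ => (Phi e σ n).getD 0).foldr (· + ·) 0
  have hB : Primrec₂ B := by
    have h1 : Primrec fun q : ℕ × ℕ => (strs q.2).map fun σ => (Phi e σ q.1).getD 0 := by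
      refine Primrec.list_map (f := fun q : ℕ × ℕ => strs q.2)
        (g := fun q σ => (Phi e σ q.1).getD 0) (primrec_strs.comp Primrec.snd) ?_
      refine Primrec.option_getD.comp ?_ (Primrec.const 0)
      exact primrec_Phi.comp (Primrec.pair (Primrec.const e)
        (Primrec.pair Primrec.snd (Primrec.fst.comp Primrec.fst)))
    refine Primrec.list_foldr (h := fun _ q => q.1 + q.2) h1 (Primrec.const 0) ?_
    exact Primrec.nat_add.comp (Primrec.fst.comp Primrec.snd) (Primrec.snd.comp Primrec.snd)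
  refine ⟨fun n => B n (Nat.find (hQex n)), ?_, ?_⟩
  · exact (Primrec₂.to_comp hB).comp Computable.id hfind
  · intro n
    have h1 := Nat.find_spec (hQex n)
    change f n ≤ B n (Nat.find (hQex n))
    generalize Nat.find (hQex n) = s at h1 ⊢
    have h2 := h1 (res X s) (res_mem_strs X s)
    have h3 : Phi e (res X s) n ≠ none := fun h => h2 ⟨hX e s, h⟩
    obtain ⟨y, hy⟩ := Option.ne_none_iff_exists'.1 h3
    obtain ⟨t, ht⟩ := he n
    have h4 : y = f n := (Phi_mono e).uniq X hy ht
    subst h4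
    have h5 : ∀ L : List ℕ, ∀ x ∈ L, x ≤ L.foldr (· + ·) 0 := by
      intro L
      induction L with
      | nil => simp
      | cons a L ih =>
        intro x hx
        rw [List.mem_cons] at hx
        rw [List.foldr_cons]
        rcases hx with rfl | hx
        · omega
        · have := ih x hx
          omega
    apply h5
    rw [List.mem_map]
    exact ⟨res X s, res_mem_strs X s, by rw [hy]; rfl⟩

end Pool.Agent.MP_e12961_lc
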