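import Pool.Agent.Lib.MP_e12961_lc.Norm

/-!
A universal family of oracle functionals acting on finite strings, and the converse direction
of the normal form.
-/

set_option autoImplicit false

namespace Pool.Agent.MP_e12961_lc

open Nat.Partrec (Code)
open Encodable Denumerable

/-- One step of the universal functional. -/
def stepF (e : ℕ) (σ : List Bool) (n k : ℕ) : Option ℕ :=
  (Code.evaln k.unpair.2 (ofNat Code e) (encode (σ.take k.unpair.1, n))).bind Nat.ppred

/-- The universal functional, evaluated on a string. -/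
def Phi (e : ℕ) (σ : List Bool) (n : ℕ) : Option ℕ :=
  ((List.range (σ.length + 1)).filterMap (stepF e σ n)).head?

theorem primrec_ppred : Primrec Nat.ppred :=
  (Primrec.nat_casesOn (f := fun n : ℕ => n) (g := fun _ => (none : Option ℕ))
    (h := fun _ k => some k) Primrec.id (Primrec.const none)
    (Primrec.option_some.comp Primrec.snd).to₂).of_eq fun n => by
      cases n <;> rfl

theorem primrec_stepF :
    Primrec fun q : (ℕ × List Bool × ℕ) × ℕ => stepF q.1.1 q.1.2.1 q.1.2.2 q.2 := by
  unfold stepF
  refine Primrec.option_bind (f := fun q : (ℕ × List Bool × ℕ) × ℕ =>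
    Code.evaln q.2.unpair.2 (ofNat Code q.1.1) (encode (q.1.2.1.take q.2.unpair.1, q.1.2.2)))
    (g := fun _ a => Nat.ppred a) ?_ (primrec_ppred.comp Primrec.snd).to₂
  have hu : Primrec fun q : (ℕ × List Bool × ℕ) × ℕ => q.2.unpair :=
    Primrec.unpair.comp Primrec.snd
  have h1 : Primrec fun q : (ℕ × List Bool × ℕ) × ℕ => q.2.unpair.2 := Primrec.snd.comp hu
  have h2 : Primrec fun q : (ℕ × List Bool × ℕ) × ℕ => ofNat Code q.1.1 :=
    (Primrec.ofNat Code).comp (Primrec.fst.comp Primrec.fst)
  have h3 : Primrec fun q : (ℕ × List Bool × ℕ) × ℕ =>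
      encode (q.1.2.1.take q.2.unpair.1, q.1.2.2) := by
    refine Primrec.encode.comp (Primrec.pair ?_ ?_)
    · exact Primrec.list_take.comp (Primrec.fst.comp hu)
        (Primrec.fst.comp (Primrec.snd.comp Primrec.fst))
    · exact Primrec.snd.comp (Primrec.snd.comp Primrec.fst)
  exact Code.primrec_evaln.comp ((h1.pair h2).pair h3)

theorem primrec_Phi : Primrec fun q : ℕ × List Bool × ℕ => Phi q.1 q.2.1 q.2.2 := by
  unfold Phi
  refine Primrec.list_head?.comp ?_
  refine Primrec.listFilterMap (f := fun q : ℕ × List Bool × ℕ => List.range (q.2.1.length + 1))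
    (g := fun q k => stepF q.1 q.2.1 q.2.2 k) ?_ primrec_stepF
  exact Primrec.list_range.comp (Primrec.succ.comp (Primrec.list_length.comp
    (Primrec.fst.comp Primrec.snd)))

theorem stepF_append (e : ℕ) (σ τ : List Bool) (n k : ℕ) (hk : k ≤ σ.length) :
    stepF e (σ ++ τ) n k = stepF e σ n k := by
  unfold stepF
  rw [List.take_append_of_le_length ((Nat.unpair_left_le k).trans hk)]

theorem Phi_mono (e : ℕ) : Mono (Phi e) := by
  intro σ τ n y h
  unfold Phi at h ⊢
  have h1 : List.range ((σ ++ τ).length + 1) =
      List.range (σ.length + 1) ++ (List.range τ.length).map (σ.length + 1 + ·) := by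
    rw [← List.range_add, List.length_append]
    congr 1
    omega
  have h2 : (List.range (σ.length + 1)).filterMap (stepF e (σ ++ τ) n) =
      (List.range (σ.length + 1)).filterMap (stepF e σ n) := by
    apply List.filterMap_congr
    intro k hk
    rw [List.mem_range] at hk
    exact stepF_append e σ τ n k (by omega)
  rw [h1, List.filterMap_append, h2, List.head?_append, h]
  rfl

theorem Phi_exists (X : ℕ → Bool) (f : ℕ → ℕ)
    (hf : Nat.RecursiveIn {orc X} (fun n => Part.some (f n))) :
    ∃ e, ∀ n, ∃ s, Phi e (res X s) n = some (f n) := by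
  obtain ⟨ψ, p, m, hψ⟩ := rep_exists X _ hf
  -- a code for ψ
  have hpr : Partrec fun q : List Bool × ℕ => Part.some (ψ q.1 q.2) :=
    (Primrec.to_comp p).partrec
  obtain ⟨c, hc⟩ := Code.exists_code.1 hpr
  have hc' : ∀ (σ : List Bool) (n : ℕ),
      Code.eval c (encode (σ, n)) = Part.some (encode (ψ σ n)) := by
    intro σ n
    rw [hc]
    simp
  refine ⟨encode c, fun n => ?_⟩
  have hsound : ∀ s k y, stepF (encode c) (res X s) n k = some y →
      y = f n := by
    intro s k y h
    unfold stepF at h
    rw [Option.bind_eq_some_iff, Denumerable.ofNat_encode] at h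
    obtain ⟨z, hz, hy⟩ := h
    have h1 := Code.evaln_sound hz
    rw [hc', Part.mem_some_iff] at h1
    subst h1
    rw [Nat.ppred_eq_some] at hy
    have h2 : ψ ((res X s).take k.unpair.1) n = some y := by
      apply Encodable.encode_injective
      rw [← hy]
      rfl
    have h3 : ∃ t, (res X s).take k.unpair.1 = res X t := by
      rcases Nat.le_total k.unpair.1 s with h | h
      · exact ⟨_, res_take X _ _ h⟩
      · refine ⟨s, List.take_of_length_le (by simpa using h)⟩
    obtain ⟨t, ht⟩ := h3
    rw [ht] at h2
    have h4 := (hψ n y).2 ⟨t, h2⟩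
    simpa using h4
  obtain ⟨s0, hs0⟩ := (hψ n (f n)).1 (by simp)
  have h5 : encode (ψ (res X s0) n) ∈ Code.eval c (encode (res X s0, n)) := by
    rw [hc']; simp
  obtain ⟨t0, ht0⟩ := Code.evaln_complete.1 h5
  let k0 := Nat.pair s0 t0
  have hk0 : s0 ≤ k0 := Nat.left_le_pair _ _
  have hstep : stepF (encode c) (res X k0) n k0 = some (f n) := by
    unfold stepF
    rw [Denumerable.ofNat_encode, Nat.unpair_pair, res_take X s0 k0 hk0]
    rw [Option.mem_def.1 ht0, hs0]
    rfl
  refine ⟨k0, ?_⟩
  unfold Phi
  rw [res_length]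
  have hne : (List.filterMap (stepF (encode c) (res X k0) n) (List.range (k0 + 1))) ≠ [] := by
    intro hcon
    rw [List.filterMap_eq_nil_iff] at hcon
    have := hcon k0 (by simp)
    rw [hstep] at this
    exact absurd this (by simp)
  rcases hL : (List.filterMap (stepF (encode c) (res X k0) n) (List.range (k0 + 1))) with _ | ⟨y, L⟩
  · exact absurd hL hne
  · have hy : y ∈ (List.filterMap (stepF (encode c) (res X k0) n) (List.range (k0 + 1))) := by
      rw [hL]; simp
    rw [List.mem_filterMap] at hy
    obtain ⟨k, _, hk⟩ := hy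
    rw [List.head?_cons, hsound _ _ _ hk]

/-! ### The converse direction -/

/-- Total functions computable from `Y`. -/
def TR (Y : ℕ → Bool) (g : ℕ → ℕ) : Prop :=
  Nat.RecursiveIn {orc Y} (fun n => Part.some (g n))

theorem TR.prim {Y : ℕ → Bool} {g : ℕ → ℕ} (hg : Primrec g) : TR Y g :=
  Nat.Partrec.recursiveIn (Nat.Partrec.of_primrec (Primrec.nat_iff.1 hg))

theorem TR.oracle (Y : ℕ → Bool) : TR Y (fun n => (Y n).toNat) :=
  Nat.RecursiveIn.oracle _ rfl

theorem TR.comp {Y : ℕ → Bool} {f g : ℕ → ℕ} (hf : TR Y f) (hg : TR Y g) :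
    TR Y (fun n => f (g n)) := by
  have := Nat.RecursiveIn.comp hf hg
  refine Nat.RecursiveIn.of_eq this ?_
  intro n
  simp

theorem TR.pair {Y : ℕ → Bool} {f g : ℕ → ℕ} (hf : TR Y f) (hg : TR Y g) :
    TR Y (fun n => Nat.pair (f n) (g n)) := by
  have := Nat.RecursiveIn.pair hf hg
  refine Nat.RecursiveIn.of_eq this ?_
  intro n
  simp [Seq.seq]

theorem TR.prec {Y : ℕ → Bool} {f h : ℕ → ℕ} (hf : TR Y f) (hh : TR Y h) :
    TR Y (fun p => Nat.rec (f p.unpair.1)
      (fun y i => h (Nat.pair p.unpair.1 (Nat.pair y i))) p.unpair.2) := by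
  have := Nat.RecursiveIn.prec hf hh
  refine Nat.RecursiveIn.of_eq this ?_
  intro p
  dsimp only
  generalize p.unpair.1 = a
  generalize p.unpair.2 = n
  induction n with
  | zero => rfl
  | succ n ih =>
    dsimp only at ih ⊢
    rw [ih]
    simp

theorem TR.find {Y : ℕ → Bool} {k : ℕ → ℕ} (hk : TR Y k)
    (H : ∀ a, ∃ s, k (Nat.pair a s) = 0) : TR Y (fun a => Nat.find (H a)) := by
  have := Nat.RecursiveIn.rfind hk
  refine Nat.RecursiveIn.of_eq_tot this ?_
  intro a
  refine Nat.mem_rfind.2 ⟨?_, ?_⟩
  · simpa using Nat.find_spec (H a)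
  · intro m hm
    simpa using Nat.find_min (H a) hm

theorem TR.of_search {Y : ℕ → Bool} {ψ : List Bool → ℕ → Option ℕ} (hψ : Primrec₂ ψ) {f : ℕ → ℕ}
    (h1 : ∀ n s y, ψ (res Y s) n = some y → y = f n)
    (h2 : ∀ n, ∃ s y, ψ (res Y s) n = some y) : TR Y f := by
  -- the sequence of codes of initial segments
  have hH : Primrec fun q : ℕ =>
      encode (((decode (α := List Bool) q.unpair.1.unpair.2.unpair.2).getD []) ++
        [decide (q.unpair.2 = 1)]) := by
    refine Primrec.encode.comp (Primrec.list_append.comp ?_ ?_)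
    · refine Primrec.option_getD.comp ?_ (Primrec.const [])
      refine Primrec.decode.comp ?_
      exact Primrec.snd.comp (Primrec.unpair.comp (Primrec.snd.comp (Primrec.unpair.comp
        (Primrec.fst.comp Primrec.unpair))))
    · refine Primrec.list_cons.comp ?_ (Primrec.const [])
      exact Primrec.eq.decide.comp (Primrec.snd.comp Primrec.unpair) (Primrec.const 1)
  have hstep : TR Y fun p =>
      encode (((decode (α := List Bool) p.unpair.2.unpair.2).getD []) ++
        [Y p.unpair.2.unpair.1]) := by
    have h3 : TR Y fun p => (Y p.unpair.2.unpair.1).toNat :=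
      (TR.oracle Y).comp (TR.prim (Primrec.fst.comp (Primrec.unpair.comp
        (Primrec.snd.comp Primrec.unpair))))
    have h4 := (TR.prim (Y := Y) hH).comp ((TR.prim (Y := Y) Primrec.id).pair h3)
    have h5 : (fun n => encode (((decode (α := List Bool)
          (Nat.pair (id n) (Y n.unpair.2.unpair.1).toNat).unpair.1.unpair.2.unpair.2).getD []) ++
        [decide ((Nat.pair (id n) (Y n.unpair.2.unpair.1).toNat).unpair.2 = 1)])) =
        fun p => encode (((decode (α := List Bool) p.unpair.2.unpair.2).getD []) ++
        [Y p.unpair.2.unpair.1]) := by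
      funext p
      simp only [Nat.unpair_pair, id_eq]
      congr 3
      cases Y p.unpair.2.unpair.1 <;> simp
    rw [h5] at h4
    exact h4
  have hres : TR Y fun p => encode (res Y p.unpair.2) := by
    have h6 := TR.prec (TR.prim (Y := Y) (Primrec.const (encode ([] : List Bool)))) hstep
    have h7 : (fun p : ℕ => (Nat.rec (encode ([] : List Bool))
        (fun y i => encode (((decode (α := List Bool)
            (Nat.pair p.unpair.1 (Nat.pair y i)).unpair.2.unpair.2).getD []) ++
          [Y (Nat.pair p.unpair.1 (Nat.pair y i)).unpair.2.unpair.1])) p.unpair.2 : ℕ)) =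
        fun p => encode (res Y p.unpair.2) := by
      funext p
      simp only [Nat.unpair_pair]
      generalize p.unpair.2 = n
      induction n with
      | zero => simp
      | succ n ih =>
        dsimp only at ih ⊢
        rw [ih, res_succ]
        simp [Encodable.encodek]
    rw [h7] at h6
    exact h6
  -- search for the stage
  have hK : Primrec fun q : ℕ =>
      if ((decode (α := List Bool) q.unpair.2).bind fun σ => ψ σ q.unpair.1.unpair.1) = none
        then 1 else 0 := by
    refine Primrec.ite ?_ (Primrec.const 1) (Primrec.const 0)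
    refine Primrec.eq.comp ?_ (Primrec.const none)
    refine Primrec.option_bind (f := fun q : ℕ => decode (α := List Bool) q.unpair.2)
      (g := fun q σ => ψ σ q.unpair.1.unpair.1)
      (Primrec.decode.comp (Primrec.snd.comp Primrec.unpair)) ?_
    refine hψ.comp Primrec.snd ?_
    exact Primrec.fst.comp (Primrec.unpair.comp (Primrec.fst.comp (Primrec.unpair.comp
      Primrec.fst)))
  have hK2 : TR Y fun p => if ψ (res Y p.unpair.2) p.unpair.1 = none then 1 else 0 := by
    have h8 := (TR.prim (Y := Y) hK).comp ((TR.prim (Y := Y) Primrec.id).pair hres)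
    have h9 : (fun n => if ((decode (α := List Bool)
          (Nat.pair (id n) (encode (res Y n.unpair.2))).unpair.2).bind fun σ =>
            ψ σ (Nat.pair (id n) (encode (res Y n.unpair.2))).unpair.1.unpair.1) = none
        then 1 else 0) =
        fun p => if ψ (res Y p.unpair.2) p.unpair.1 = none then 1 else 0 := by
      funext p
      simp only [Nat.unpair_pair, id_eq, Encodable.encodek, Option.bind_some]
    rw [h9] at h8
    exact h8
  have hex : ∀ a, ∃ s, (fun p : ℕ => if ψ (res Y p.unpair.2) p.unpair.1 = none then 1 else 0)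
      (Nat.pair a s) = 0 := by
    intro a
    obtain ⟨s, y, hs⟩ := h2 a
    refine ⟨s, ?_⟩
    simp [hs]
  have hfind := TR.find hK2 hex
  -- read off the value
  have hV : Primrec fun q : ℕ =>
      ((decode (α := List Bool) q.unpair.2).bind fun σ => ψ σ q.unpair.1).getD 0 := by
    refine Primrec.option_getD.comp ?_ (Primrec.const 0)
    refine Primrec.option_bind (f := fun q : ℕ => decode (α := List Bool) q.unpair.2)
      (g := fun q σ => ψ σ q.unpair.1)
      (Primrec.decode.comp (Primrec.snd.comp Primrec.unpair)) ?_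
    refine hψ.comp Primrec.snd ?_
    exact Primrec.fst.comp (Primrec.unpair.comp Primrec.fst)
  have hid : TR Y fun n => n := TR.prim Primrec.id
  have h10 := (TR.prim (Y := Y) hV).comp (hid.pair (hres.comp
    (hid.pair hfind)))
  have h11 : (fun n => ((decode (α := List Bool) (Nat.pair n
      (encode (res Y (Nat.pair n (Nat.find (hex n))).unpair.2))).unpair.2).bind fun σ =>
        ψ σ (Nat.pair n (encode (res Y (Nat.pair n (Nat.find (hex n))).unpair.2))).unpair.1).getD 0)
      = f := by
    funext n
    have h12 := Nat.find_spec (hex n)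
    generalize Nat.find (hex n) = s at h12 ⊢
    simp only [Nat.unpair_pair] at h12
    simp only [Nat.unpair_pair, Encodable.encodek, Option.bind_some]
    rcases h13 : ψ (res Y s) n with _ | y
    · rw [h13] at h12
      simp at h12
    · exact h1 _ _ _ h13
  rw [h11] at h10
  exact h10

end Pool.Agent.MP_e12961_lc
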